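import Pool.Agent.U81.AT.Main

/-!
The admissible primes.
-/

set_option autoImplicit false

namespace Pool.Agent.U81.AT

open NumberField IsDedekindDomain Filter Topology
open Pool.Agent.K4H55.BD (low mem_low Spl QE Cub pv crv)
open Pool.Agent.K4H55.BI (IQ BF)
open Pool.Agent.K4H55.CX (noroot_up)

variable {K : Type} [Field K] [NumberField K] {σ : K →+* ℂ} {δ : K}
  {a b n : 𝓞 K} {c : Ideal (𝓞 K) → ℂ} {L : Type} [Field L] [NumberField L] [Algebra K L] {θ : L}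

/-- the conditions at the primes of bad reduction -/
def Bd (a b : 𝓞 K) (k q : ℕ) : Prop :=
  2 ^ k ∣ q - 1 ∧ ∀ v : HeightOneSpectrum (𝓞 K), 2 * (4 * a ^ 3 + 27 * b ^ 2) ∈ v.asIdeal →
    ∃ y : ZMod q, y ^ 2 ^ k = (Ideal.absNorm v.asIdeal : ℕ)

lemma bd_of {k q : ℕ} (hΔ : 4 * a ^ 3 + 27 * b ^ 2 ≠ 0)
    (h : PwR k (Ideal.absNorm (Ideal.span {2 * (4 * a ^ 3 + 27 * b ^ 2)})).divisors q) :
    Bd a b k q := by
  have h0 : (2 * (4 * a ^ 3 + 27 * b ^ 2) : 𝓞 K) ≠ 0 := mul_ne_zero two_ne_zero hΔ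
  refine ⟨h.1, fun v hv => h.2 _ ?_⟩
  rw [Nat.mem_divisors]
  refine ⟨Ideal.absNorm_dvd_absNorm_of_le ?_, ?_⟩
  · rw [Ideal.span_singleton_le_iff_mem]
    exact hv
  · rw [Ne, Ideal.absNorm_eq_zero_iff, Ideal.span_singleton_eq_bot]
    exact h0

/-- **The admissible primes.** -/
theorem dens_top (h : IQ K σ δ) (hΔ : 4 * a ^ 3 + 27 * b ^ 2 ≠ 0) (hn : n ≠ 0) (hK : Cub K θ)
    (hθ : θ ^ 3 + algebraMap K L a * θ + algebraMap K L b = 0) (k : ℕ) :
    (∃ d : ℝ, 0 < d ∧ ∀ᶠ N : ℕ in atTop,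
      d * (N / Real.log N) ≤ Nat.card {q : ℕ // q ≤ N ∧ q ∈ QE h a b n ∧ Bd a b k q}) ∧
    {q : ℕ | q ∈ QE h a b n ∧ Bd a b k q}.Infinite := by
  classical
  obtain ⟨d, hd, h1⟩ := densR h hΔ hn (fun x => by
    have := noroot_up (F := K) hK hθ (k := 0) (by rw [pow_zero]; exact Module.finrank_self K) x
    exact this) k (Ideal.absNorm (Ideal.span {2 * (4 * a ^ 3 + 27 * b ^ 2)})).divisors
      (fun r hr => by
        rintro rfl
        simp at hr)
  set R := (Ideal.absNorm (Ideal.span {2 * (4 * a ^ 3 + 27 * b ^ 2)})).divisors with hR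
  constructor
  · refine ⟨d, hd, ?_⟩
    filter_upwards [h1 ∅ Set.finite_empty] with N hN
    refine hN.trans ?_
    have h2 : Pool.Agent.K4H55.AB.Cnt.cA (QR h a b n k R \ ∅) N ≤
        Nat.card {q : ℕ // q ≤ N ∧ q ∈ QE h a b n ∧ Bd a b k q} := by
      rw [Set.sdiff_empty]
      unfold Pool.Agent.K4H55.AB.Cnt.cA
      have h3 : {q : ℕ | q ≤ N ∧ q ∈ QE h a b n ∧ Bd a b k q} =
          (((Finset.range (N + 1)).filter (fun q => q ∈ QE h a b n ∧ Bd a b k q) :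
            Finset ℕ) : Set ℕ) := by
        ext q
        simp only [Set.mem_ofPred_eq, Finset.coe_filter, Finset.mem_range, Nat.lt_succ_iff]
      have h4 : Nat.card {q : ℕ // q ≤ N ∧ q ∈ QE h a b n ∧ Bd a b k q} =
          Set.ncard {q : ℕ | q ≤ N ∧ q ∈ QE h a b n ∧ Bd a b k q} := by
        rw [← Nat.card_coe_set_eq]; rfl
      rw [h4, h3, Set.ncard_coe_finset]
      refine Finset.card_le_card fun q hq => ?_
      rw [Finset.mem_filter] at hq ⊢
      exact ⟨hq.1, hq.2.1, bd_of hΔ hq.2.2⟩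
    exact_mod_cast h2
  · intro hfin
    have h2 : (QR h a b n k R).Finite := hfin.subset fun q hq => ⟨hq.1, bd_of hΔ hq.2⟩
    obtain ⟨N, hN, hN2⟩ := ((h1 _ h2).and (eventually_ge_atTop 2)).exists
    rw [Set.sdiff_self] at hN
    have h3 : Pool.Agent.K4H55.AB.Cnt.cA (∅ : Set ℕ) N = 0 := by
      unfold Pool.Agent.K4H55.AB.Cnt.cA
      simp
    have h4 : (2 : ℝ) ≤ N := by exact_mod_cast hN2
    have h5 : 0 < Real.log N := Real.log_pos (by linarith)
    have h6 : 0 < d * (N / Real.log N) := mul_pos hd (div_pos (by linarith) h5)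
    have h7 : d * (N / Real.log N) ≤ 0 := by
      refine hN.trans (le_of_eq ?_)
      exact_mod_cast h3
    linarith

/-- towers with all the levels -/
lemma exists_levels {P : ℕ → ℕ → Prop} (h : ∀ m, {q | P m q}.Infinite) :
    ∃ (S : Set ℕ) (k : ℕ → ℕ), (∀ q ∈ S, P (k q) q) ∧ ∀ m, {q | q ∈ S ∧ m ≤ k q}.Infinite := by
  classical
  refine ⟨{q | ∃ m ≤ q, P m q}, fun q => Nat.findGreatest (fun m => P m q) q, ?_, fun m => ?_⟩
  · rintro q ⟨m, hm, hq⟩
    exact Nat.findGreatest_spec (P := fun m => P m q) hm hq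
  · intro hfin
    apply h m
    refine (hfin.union (Set.finite_Iio m)).subset fun q hq => ?_
    by_cases h1 : q < m
    · exact Or.inr h1
    · refine Or.inl ⟨⟨m, by omega, hq⟩, ?_⟩
      exact Nat.le_findGreatest (P := fun m => P m q) (by omega) hq

end Pool.Agent.U81.AT
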