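import Pool.Agent.U81.AT.Res
import Pool.Agent.K4H55.CX.AbL
import Pool.Agent.K4H55.BD.Sym

/-!
The characters of the abelian extensions.
-/

set_option autoImplicit false

namespace Pool.Agent.U81.AT

open NumberField IsDedekindDomain Pointwise WithZero
open Pool.Agent.K4H55.BD (low mem_low Spl tau mul_tau tau_tau tau_int norm_eq tv mem_tv int_mem tv_ne
  mem_tv_nat eq_or_tv)
open Pool.Agent.K4H55.BI (IQ gen gen_span gen_dvd)
open Pool.Agent.K4H55.CX (CH CF)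
open Pool.Agent.U81.MQ (ine dec nums)

section nn

variable {K : Type} [Field K] [NumberField K] {σ : K →+* ℂ} {δ : K}

/-- the norm -/
noncomputable def nn (x : 𝓞 K) : ℕ := Ideal.absNorm (Ideal.span {x})

lemma nn_mul (x y : 𝓞 K) : nn (x * y) = nn x * nn y := by
  unfold nn
  rw [← Ideal.span_singleton_mul_span_singleton, map_mul]

lemma nn_unit {x : 𝓞 K} (h : IsUnit x) : nn x = 1 := by
  unfold nn
  rw [Ideal.span_singleton_eq_top.2 h]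
  exact Ideal.absNorm_top

lemma nn_one : nn (1 : 𝓞 K) = 1 := nn_unit isUnit_one

lemma nn_gen [IsPrincipalIdealRing (𝓞 K)] (v : HeightOneSpectrum (𝓞 K)) :
    nn (gen v) = Ideal.absNorm v.asIdeal := by
  unfold nn
  rw [gen_span]

lemma nn_tau (h : IQ K σ δ) (x : 𝓞 K) : ((nn x : ℕ) : 𝓞 K) = x * tau h x := by
  rw [mul_tau, norm_eq h, Int.cast_natCast]
  rfl

lemma nn_mem (h : IQ K σ δ) {q : ℕ} (hq : Spl h q) {v : HeightOneSpectrum (𝓞 K)}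
    (hv : (q : 𝓞 K) ∈ v.asIdeal) {x : 𝓞 K} : q ∣ nn x ↔ x ∈ v.asIdeal ∨ x ∈ (tv h v).asIdeal := by
  have h1 := int_mem hq.pr hv (n := (nn x : ℤ))
  rw [Int.natCast_dvd_natCast, Int.cast_natCast, nn_tau h] at h1
  rw [← h1, mem_tv]
  exact ⟨fun h2 => v.isPrime.mem_or_mem h2, fun h2 => h2.elim (fun h3 => v.asIdeal.mul_mem_right _ h3)
    fun h3 => v.asIdeal.mul_mem_left _ h3⟩

lemma nn_congr (h : IQ K σ δ) {q : ℕ} (hq : Spl h q) {v : HeightOneSpectrum (𝓞 K)}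
    (hv : (q : 𝓞 K) ∈ v.asIdeal) {x y z : 𝓞 K} (h1 : x - y ∈ v.asIdeal)
    (h2 : tau h x - z ∈ v.asIdeal) {m : ℤ} (hm : y * z - m ∈ v.asIdeal) :
    ((nn x : ℕ) : ZMod q) = m := by
  have h3 : (((nn x : ℤ) - m : ℤ) : 𝓞 K) ∈ v.asIdeal := by
    rw [Int.cast_sub, Int.cast_natCast, nn_tau h]
    have e : x * tau h x - (m : 𝓞 K) = (x - y) * tau h x + y * (tau h x - z) + (y * z - m) := by ring
    rw [e]
    exact v.asIdeal.add_mem (v.asIdeal.add_mem (v.asIdeal.mul_mem_right _ h1)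
      (v.asIdeal.mul_mem_left _ h2)) hm
  rw [int_mem hq.pr hv] at h3
  have h4 := (ZMod.intCast_zmod_eq_zero_iff_dvd _ q).2 h3
  rw [Int.cast_sub, Int.cast_natCast, sub_eq_zero] at h4
  exact h4

end nn

section val

open Classical in
/-- the value of the primitive character -/
noncomputable def vl {q : ℕ} (ψ : (ZMod q)ˣ →* ℂˣ) (k : ℕ) : ℂ :=
  if ψ = 1 then 1 else MulChar.ofUnitHom ψ (k : ZMod q)

variable {q : ℕ} {ψ ψ' : (ZMod q)ˣ →* ℂˣ} {k l : ℕ}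

lemma vl_one_left : vl (1 : (ZMod q)ˣ →* ℂˣ) k = 1 := by
  unfold vl
  rw [if_pos rfl]

lemma vl_unit {a : (ZMod q)ˣ} (ha : (a : ZMod q) = k) : vl ψ k = ψ a := by
  unfold vl
  split_ifs with h1
  · rw [h1]
    simp
  · rw [← ha, MulChar.ofUnitHom_coe]

lemma vl_one : vl ψ 1 = 1 := by
  rw [vl_unit (a := 1) (by simp), map_one, Units.val_one]

lemma vl_mul : vl ψ (k * l) = vl ψ k * vl ψ l := by
  unfold vl
  split_ifs with h1
  · rw [one_mul]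
  · rw [Nat.cast_mul, map_mul]

lemma vl_zero : vl ψ k = 0 ↔ ψ ≠ 1 ∧ ¬ IsUnit (k : ZMod q) := by
  unfold vl
  split_ifs with h1
  · simp [h1]
  · refine ⟨fun h2 => ⟨h1, fun h3 => ?_⟩, fun h2 => MulChar.map_nonunit _ h2.2⟩
    obtain ⟨a, ha⟩ := h3
    rw [← ha, MulChar.ofUnitHom_coe] at h2
    exact (ψ a).ne_zero h2

lemma vl_unit_of (h1 : vl ψ k ≠ 0) (h2 : ψ ≠ 1) : ∃ a : (ZMod q)ˣ, (a : ZMod q) = k := by
  by_contra h3
  exact h1 (vl_zero.2 ⟨h2, fun h4 => h3 h4⟩)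

lemma vl_mul_left (h1 : vl ψ k ≠ 0) (h2 : vl ψ' k ≠ 0) : vl (ψ * ψ') k = vl ψ k * vl ψ' k := by
  by_cases h3 : ψ = 1
  · have e : ψ * ψ' = ψ' := by
      rw [h3]
      exact MonoidHom.ext fun a => one_mul _
    rw [e, h3, vl_one_left, _root_.one_mul]
  · obtain ⟨a, ha⟩ := vl_unit_of h1 h3
    rw [vl_unit ha, vl_unit ha, vl_unit ha, MonoidHom.mul_apply, Units.val_mul]

lemma vl_pow {m : ℕ} (h : ∀ a, ψ a ^ m = 1) (h1 : vl ψ k ≠ 0) : vl ψ k ^ m = 1 := by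
  by_cases h3 : ψ = 1
  · rw [h3, vl_one_left, one_pow]
  · obtain ⟨a, ha⟩ := vl_unit_of h1 h3
    rw [vl_unit ha, ← Units.val_pow_eq_pow_val, h, Units.val_one]

lemma vl_congr (h : (k : ZMod q) = l) : vl ψ k = vl ψ l := by
  unfold vl
  rw [h]

lemma unit_iff (hq : q.Prime) : IsUnit (k : ZMod q) ↔ ¬ q ∣ k := by
  rw [ZMod.isUnit_iff_coprime, Nat.coprime_comm]
  exact Nat.Prime.coprime_iff_not_dvd hq

end val

variable {K F M : Type} [Field K] [NumberField K] [Field F] [NumberField F] [Field M]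
  [NumberField M] [Algebra K F] [Algebra F M] [Algebra K M] [IsScalarTower K F M]
  [IsGalois K F] [IsGalois K M] {S : Finset ℕ} {ζ : ℕ → 𝓞 M}

/-- the Galois group -/
noncomputable def CY (h : Cyc K S ζ) : (M ≃ₐ[K] M) →* ((q : S) → (ZMod (q : ℕ))ˣ) :=
  MonoidHom.pi fun q => cy h q.2

lemma CY_bij (h : Cyc K S ζ) (hun : ∀ q ∈ S, ∀ v : HeightOneSpectrum (𝓞 K),
    (q : 𝓞 K) ∈ v.asIdeal → v.valuation K (q : K) = exp (-1 : ℤ)) :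
    Function.Bijective (CY h) := by
  classical
  refine ⟨fun σ τ hst => cy_inj h fun q hq => congrFun hst ⟨q, hq⟩, fun a => ?_⟩
  obtain ⟨σ, hσ⟩ := cy_surj h hun fun q => if hq : q ∈ S then a ⟨q, hq⟩ else 1
  refine ⟨σ, funext fun q => ?_⟩
  have := hσ q.1 q.2
  rw [dif_pos q.2] at this
  exact this

/-- the data -/
structure Dat (K : Type) {M : Type} [Field K] [NumberField K] [Field M] [NumberField M]
    [Algebra K M] (S : Finset ℕ) (ζ : ℕ → 𝓞 M) : Prop where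
  cyc : Cyc K S ζ
  un : ∀ q ∈ S, ∀ v : HeightOneSpectrum (𝓞 K),
    (q : 𝓞 K) ∈ v.asIdeal → v.valuation K (q : K) = exp (-1 : ℤ)

noncomputable def EQ (h : Dat K S ζ) : (M ≃ₐ[K] M) ≃* ((q : S) → (ZMod (q : ℕ))ˣ) :=
  MulEquiv.ofBijective (CY h.cyc) (CY_bij h.cyc h.un)

open Classical in
/-- the components of a character -/
noncomputable def ps (h : Dat K S ζ) (χ : (F ≃ₐ[K] F) →* ℂˣ) (q : S) : (ZMod (q : ℕ))ˣ →* ℂˣ :=
  χ.comp ((res K F M).comp ((EQ h).symm.toMonoidHom.comp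
    (MonoidHom.mulSingle (fun q : S => (ZMod (q : ℕ))ˣ) q)))

lemma ps_prod (h : Dat K S ζ) (χ : (F ≃ₐ[K] F) →* ℂˣ) (σ : M ≃ₐ[K] M) :
    χ (res K F M σ) = ∏ q : S, ps h χ q (cy h.cyc q.2 σ) := by
  classical
  have h1 : σ = (EQ h).symm (EQ h σ) := ((EQ h).symm_apply_apply σ).symm
  let g : ((q : S) → (ZMod (q : ℕ))ˣ) →* ℂˣ := χ.comp ((res K F M).comp (EQ h).symm.toMonoidHom)
  have h2 : χ (res K F M σ) = g (EQ h σ) := by
    conv_lhs => rw [h1]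
    rfl
  rw [h2, ← Finset.univ_prod_mulSingle (EQ h σ), map_prod]
  rfl

lemma ps_mul (h : Dat K S ζ) (χ χ' : (F ≃ₐ[K] F) →* ℂˣ) (q : S) :
    ps h (χ * χ') q = ps h χ q * ps h χ' q := rfl

lemma ps_pow (h : Dat K S ζ) (χ : (F ≃ₐ[K] F) →* ℂˣ) {k : ℕ}
    (hk : ∀ τ : F ≃ₐ[K] F, τ ^ k = 1) (q : S) (a) : ps h χ q a ^ k = 1 := by
  show χ (res K F M _) ^ k = 1
  rw [← map_pow, hk, map_one]

/-- the character as a function -/
noncomputable def fn (h : Dat K S ζ) (χ : (F ≃ₐ[K] F) →* ℂˣ) (x : 𝓞 K) : ℂ :=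
  ∏ q : S, vl (ps h χ q) (nn x)

variable {σ : K →+* ℂ} {δ : K}

lemma tt_fin (h : Dat K S ζ) (χ : (F ≃ₐ[K] F) →* ℂˣ) : {v : HeightOneSpectrum (𝓞 K) |
    ∃ q : S, ps h χ q ≠ 1 ∧ ((q : ℕ) : 𝓞 K) ∈ v.asIdeal}.Finite := by
  have h1 : {v : HeightOneSpectrum (𝓞 K) | ∃ q : S, ps h χ q ≠ 1 ∧ ((q : ℕ) : 𝓞 K) ∈ v.asIdeal} ⊆
      ⋃ q : S, {v : HeightOneSpectrum (𝓞 K) | ((q : ℕ) : 𝓞 K) ∈ v.asIdeal} := by
    rintro v ⟨q, -, hv⟩
    exact Set.mem_iUnion.2 ⟨q, hv⟩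
  refine Set.Finite.subset (Set.finite_iUnion fun q => ?_) h1
  have hq0 : ((q : ℕ) : 𝓞 K) ≠ 0 := by exact_mod_cast (h.cyc.pr q q.2).ne_zero
  have h2 : (Ideal.span {((q : ℕ) : 𝓞 K)}) ≠ ⊥ := by
    rw [Ne, Ideal.span_singleton_eq_bot]
    exact hq0
  refine (Ideal.finite_factors h2).subset fun v hv => ?_
  show v.asIdeal ∣ _
  rw [Ideal.dvd_span_singleton]
  exact hv

/-- the places of the conductor -/
noncomputable def TT (h : Dat K S ζ) (χ : (F ≃ₐ[K] F) →* ℂˣ) :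
    Finset (HeightOneSpectrum (𝓞 K)) := (tt_fin h χ).toFinset

lemma mem_TT {h : Dat K S ζ} {χ : (F ≃ₐ[K] F) →* ℂˣ} {v : HeightOneSpectrum (𝓞 K)} :
    v ∈ TT h χ ↔ ∃ q : S, ps h χ q ≠ 1 ∧ ((q : ℕ) : 𝓞 K) ∈ v.asIdeal := by
  unfold TT
  rw [Set.Finite.mem_toFinset]
  rfl

lemma fn_zero (h : Dat K S ζ) (hI : IQ K σ δ) (hS : ∀ q ∈ S, Spl hI q)
    (χ : (F ≃ₐ[K] F) →* ℂˣ) (x : 𝓞 K) : fn h χ x = 0 ↔ ∃ v ∈ TT h χ, x ∈ v.asIdeal := by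
  unfold fn
  rw [Finset.prod_eq_zero_iff]
  constructor
  · rintro ⟨q, -, hq⟩
    rw [vl_zero, unit_iff (h.cyc.pr q q.2), not_not] at hq
    obtain ⟨v, hv⟩ := exists_over (M := K) q.1 (h.cyc.pr q q.2)
    rcases (nn_mem hI (hS q q.2) hv).1 hq.2 with h1 | h1
    · exact ⟨v, mem_TT.2 ⟨q, hq.1, hv⟩, h1⟩
    · exact ⟨tv hI v, mem_TT.2 ⟨q, hq.1, mem_tv_nat hI hv⟩, h1⟩
  · rintro ⟨v, hv, hx⟩
    obtain ⟨q, hq, hqv⟩ := mem_TT.1 hv
    refine ⟨q, Finset.mem_univ _, ?_⟩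
    rw [vl_zero, unit_iff (h.cyc.pr q q.2), not_not]
    exact ⟨hq, (nn_mem hI (hS q q.2) hqv).2 (Or.inl hx)⟩

end Pool.Agent.U81.AT
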