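import Pool.Agent.U81.MQ.Num

/-!
Inertia groups and Frobenius elements in extensions generated by roots of unity.
-/

set_option autoImplicit false

namespace Pool.Agent.U81.AT

open NumberField IsDedekindDomain Pointwise WithZero
open Pool.Agent.K4H55.BD (low mem_low)
open Pool.Agent.U81.MQ (ine dec nums)

section ring
variable {R : Type*} [CommRing R] [IsDomain R] {I : Ideal R} {m : ℕ}

lemma sep_one {x : R} (hx : x ^ m = 1) (h1 : x ≠ 1) (hI : x - 1 ∈ I) : (m : R) ∈ I := by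
  have h2 : ∑ i ∈ Finset.range m, x ^ i = 0 := by
    have h3 := mul_geom_sum x m
    rw [hx, sub_self] at h3
    rcases mul_eq_zero.1 h3 with h4 | h4
    · exact absurd (sub_eq_zero.1 h4) h1
    · exact h4
  have h3 : (m : R) = -(∑ i ∈ Finset.range m, (x ^ i - 1)) := by
    rw [Finset.sum_sub_distrib, h2]
    simp
  rw [h3]
  refine I.neg_mem (I.sum_mem fun i _ => ?_)
  exact I.mem_of_dvd (sub_one_dvd_pow_sub_one x i) hI

/-- different roots of unity are different modulo `I` -/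
lemma sep {y z : R} (hy : y ^ m = 1) (hz : z ^ m = 1) (h : y - z ∈ I) (hm : (m : R) ∉ I) :
    y = z := by
  rcases Nat.eq_zero_or_pos m with rfl | hm0
  · exact absurd (by simp) hm
  have hzz : z * z ^ (m - 1) = 1 := by
    rw [← pow_succ', Nat.sub_add_cancel hm0, hz]
  have hx : (y * z ^ (m - 1)) ^ m = 1 := by
    rw [mul_pow, hy, ← pow_mul, mul_comm (m - 1) m, pow_mul, hz, one_pow, one_mul]
  have h2 : y * z ^ (m - 1) - 1 ∈ I := by
    have e : y * z ^ (m - 1) - 1 = (y - z) * z ^ (m - 1) := by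
      rw [sub_mul, hzz]
    rw [e]
    exact I.mul_mem_right _ h
  by_contra hne
  refine hm (sep_one hx (fun h3 => hne ?_) h2)
  have h4 := congrArg (· * z) h3
  simp only [one_mul] at h4
  rw [mul_assoc, mul_comm (z ^ (m - 1)) z, hzz, mul_one] at h4
  exact h4

end ring

variable {K M : Type} [Field K] [NumberField K] [Field M] [NumberField M] [Algebra K M]

/-- `M` is generated over `K` by the roots of unity of the orders `q ∈ S`, which are primes -/
structure Cyc (K : Type) {M : Type} [Field K] [NumberField K] [Field M] [NumberField M]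
    [Algebra K M] (S : Finset ℕ) (ζ : ℕ → 𝓞 M) : Prop where
  pr : ∀ q ∈ S, q.Prime
  root : ∀ q ∈ S, IsPrimitiveRoot (ζ q : M) q
  gen : ∀ σ : M ≃ₐ[K] M, (∀ q ∈ S, σ (ζ q : M) = (ζ q : M)) → σ = 1

variable {S : Finset ℕ} {ζ : ℕ → 𝓞 M}

lemma Cyc.pw (h : Cyc K S ζ) {q : ℕ} (hq : q ∈ S) : ζ q ^ q = 1 := by
  apply RingOfIntegers.ext
  simp only [map_pow, map_one]
  exact (h.root q hq).pow_eq_one

lemma Cyc.ne (h : Cyc K S ζ) {q : ℕ} (hq : q ∈ S) : ζ q ≠ 1 := by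
  intro h1
  have h2 := (h.root q hq).ne_one (h.pr q hq).one_lt
  apply h2
  rw [h1]
  rfl

/-- the cyclotomic character -/
noncomputable def cy (h : Cyc K S ζ) {q : ℕ} (hq : q ∈ S) : (M ≃ₐ[K] M) →* (ZMod q)ˣ :=
  haveI : NeZero q := ⟨(h.pr q hq).ne_zero⟩
  (h.root q hq).autToPow K

lemma cy_spec (h : Cyc K S ζ) {q : ℕ} (hq : q ∈ S) (σ : M ≃ₐ[K] M) :
    (ζ q : M) ^ (cy h hq σ : ZMod q).val = σ (ζ q : M) := by
  haveI : NeZero q := ⟨(h.pr q hq).ne_zero⟩
  exact (h.root q hq).autToPow_spec K σ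

lemma cy_smul (h : Cyc K S ζ) {q : ℕ} (hq : q ∈ S) (σ : M ≃ₐ[K] M) :
    σ • ζ q = ζ q ^ (cy h hq σ : ZMod q).val := by
  apply RingOfIntegers.ext
  simp only [map_pow]
  exact (cy_spec h hq σ).symm

lemma prim_mod {R : Type*} [CommRing R] [IsDomain R] {z : R} {q : ℕ} (hz : IsPrimitiveRoot z q)
    (hq : 0 < q) {i j : ℕ} (hij : z ^ i = z ^ j) : (i : ZMod q) = j := by
  wlog hle : i ≤ j generalizing i j
  · exact (this hij.symm (by omega)).symm
  obtain ⟨k, rfl⟩ := Nat.exists_eq_add_of_le hle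
  have h0 : z ^ i ≠ 0 := by
    intro h0
    have h1 : z ^ q = 1 := hz.pow_eq_one
    have h2 := eq_zero_of_pow_eq_zero h0
    rw [h2, zero_pow hq.ne'] at h1
    exact zero_ne_one h1
  have h1 : z ^ k = 1 := by
    rw [pow_add] at hij
    have : z ^ i * (z ^ k - 1) = 0 := by
      rw [mul_sub, ← hij]
      ring
    rcases mul_eq_zero.1 this with h2 | h2
    · exact absurd h2 h0
    · exact sub_eq_zero.1 h2
  have h2 := (hz.pow_eq_one_iff_dvd k).1 h1
  rw [Nat.cast_add, (ZMod.natCast_eq_zero_iff k q).2 h2, add_zero]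

lemma cy_eq (h : Cyc K S ζ) {q : ℕ} (hq : q ∈ S) {σ : M ≃ₐ[K] M} {k : ℕ}
    (hk : σ • ζ q = ζ q ^ k) : (cy h hq σ : ZMod q) = k := by
  haveI : NeZero q := ⟨(h.pr q hq).ne_zero⟩
  rw [cy_smul h hq] at hk
  have h1 : (ζ q : M) ^ (cy h hq σ : ZMod q).val = (ζ q : M) ^ k := by
    have := congrArg (fun x : 𝓞 M => (x : M)) hk
    simpa only [map_pow] using this
  have h3 := prim_mod (h.root q hq) (h.pr q hq).pos h1
  rwa [ZMod.natCast_zmod_val] at h3

lemma cy_one (h : Cyc K S ζ) {q : ℕ} (hq : q ∈ S) {σ : M ≃ₐ[K] M}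
    (hk : σ • ζ q = ζ q) : cy h hq σ = 1 := by
  apply Units.ext
  rw [cy_eq h hq (k := 1) (by rwa [pow_one])]
  simp

lemma cy_inj (h : Cyc K S ζ) {σ τ : M ≃ₐ[K] M} (hst : ∀ q (hq : q ∈ S), cy h hq σ = cy h hq τ) :
    σ = τ := by
  have h1 : τ⁻¹ * σ = 1 := by
    apply h.gen
    intro q hq
    have h2 : cy h hq (τ⁻¹ * σ) = 1 := by
      rw [map_mul, map_inv, hst q hq, inv_mul_cancel]
    rw [← cy_spec h hq, h2]
    have : Fact (1 < q) := ⟨(h.pr q hq).one_lt⟩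
    rw [Units.val_one, ZMod.val_one, pow_one]
  rw [inv_mul_eq_one] at h1
  exact h1.symm

lemma Cyc.comm (h : Cyc K S ζ) (σ τ : M ≃ₐ[K] M) : σ * τ = τ * σ :=
  cy_inj h fun q hq => by rw [map_mul, map_mul, mul_comm]

/-- the inertia group acts trivially on the roots of unity of order prime to the place -/
lemma cy_ine (h : Cyc K S ζ) (u : HeightOneSpectrum (𝓞 M)) {q : ℕ} (hq : q ∈ S)
    (hqu : (q : 𝓞 M) ∉ u.asIdeal) {σ : M ≃ₐ[K] M} (hσ : σ ∈ ine (K := K) u) : cy h hq σ = 1 := by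
  apply cy_one
  have h4 : σ • ζ q - ζ q ∈ u.asIdeal := hσ (ζ q)
  refine sep (m := q) ?_ (h.pw hq) h4 hqu
  rw [← smul_pow', h.pw hq, smul_one]

/-- the Frobenius elements -/
lemma cy_frob (h : Cyc K S ζ) (u : HeightOneSpectrum (𝓞 M)) {q : ℕ} (hq : q ∈ S)
    (hqu : (q : 𝓞 M) ∉ u.asIdeal) {σ : M ≃ₐ[K] M} {k : ℕ} (hσ : σ • ζ q - ζ q ^ k ∈ u.asIdeal) :
    (cy h hq σ : ZMod q) = k := by
  apply cy_eq
  refine sep (m := q) ?_ ?_ hσ hqu
  · rw [← smul_pow', h.pw hq, smul_one]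
  · rw [← pow_mul, mul_comm, pow_mul, h.pw hq, one_pow]

end Pool.Agent.U81.AT
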