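import Pool.Agent.U81.AT.Cyc
import Pool.Agent.K4H55.BD.Den

/-!
The density of the admissible primes with power residue conditions.
-/

set_option autoImplicit false

open NumberField IsDedekindDomain Filter Topology ComplexConjugate

namespace Pool.Agent.U81.AT

open Pool.Agent.W569.FM Pool.Agent.Y142
open Pool.Agent.K4H55.BI (IQ trace_iq norm_iq)
open Pool.Agent.K4H55.AB (X0 density_lower remove cA_mono conj_root conj_mem_HH mem_HH_all frob_pow)
open Pool.Agent.K4H55.BD hiding int_mem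

/-- power residues -/
def PwR (k : ℕ) (R : Finset ℕ) (q : ℕ) : Prop :=
  2 ^ k ∣ q - 1 ∧ ∀ r ∈ R, ∃ y : ZMod q, y ^ 2 ^ k = r

lemma cyc_pow {q n : ℕ} (hq : q.Prime) (hn : n ∣ q - 1) {r : ZMod q} (hr : r ≠ 0)
    (h : r ^ ((q - 1) / n) = 1) : ∃ y : ZMod q, y ^ n = r := by
  have : Fact q.Prime := ⟨hq⟩
  obtain ⟨g, hg⟩ := IsCyclic.exists_generator (α := (ZMod q)ˣ)
  obtain ⟨m, hm⟩ := hn
  have hq1 : 0 < q - 1 := by have := hq.two_le; omega
  have hn0 : 0 < n := by
    rcases Nat.eq_zero_or_pos n with h0 | h0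
    · rw [h0, zero_mul] at hm
      omega
    · exact h0
  have hm0 : 0 < m := by
    rcases Nat.eq_zero_or_pos m with h0 | h0
    · rw [h0, mul_zero] at hm
      omega
    · exact h0
  rw [hm, Nat.mul_div_cancel_left _ hn0] at h
  have hord : orderOf g = q - 1 := by
    rw [orderOf_eq_card_of_forall_mem_zpowers hg, Nat.card_eq_fintype_card,
      ZMod.card_units_eq_totient, Nat.totient_prime hq]
  obtain ⟨i, hi⟩ := (Submonoid.mem_powers_iff _ _).1
    (mem_powers_iff_mem_zpowers.2 (hg (Units.mk0 r hr)))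
  have h1 : g ^ (i * m) = 1 := by
    rw [pow_mul, hi]
    ext
    simpa using h
  have h2 := orderOf_dvd_of_pow_eq_one h1
  rw [hord, hm] at h2
  obtain ⟨j, hj⟩ := Nat.dvd_of_mul_dvd_mul_right hm0 h2
  refine ⟨((g ^ j : (ZMod q)ˣ) : ZMod q), ?_⟩
  have h3 : (g ^ j) ^ n = Units.mk0 r hr := by
    rw [← hi, hj, ← pow_mul, mul_comm]
  rw [← Units.val_pow_eq_pow_val, h3, Units.val_mk0]

section fix

variable {Ω : Type} [Field Ω] [Algebra ℚ Ω] [IsAlgClosed Ω] [CharZero Ω]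

lemma fix_root (g : Ω ≃ₐ[ℚ] Ω) (k : ℕ) {ε : Ω} (hε : ε ^ 2 ^ k = 1) : (g ^ 2 ^ k) ε = ε := by
  have hn : NeZero (2 ^ k) := ⟨by positivity⟩
  have hn' : NeZero ((2 ^ k : ℕ) : Ω) := ⟨by exact_mod_cast (pow_ne_zero k two_ne_zero)⟩
  obtain ⟨ζ, hζ⟩ : ∃ ζ : Ω, IsPrimitiveRoot ζ (2 ^ k) :=
    HasEnoughRootsOfUnity.exists_primitiveRoot Ω (2 ^ k)
  have h1 : hζ.autToPow ℚ (g ^ 2 ^ k) = 1 := by
    rw [map_pow]
    have h2 : Fintype.card (ZMod (2 ^ k))ˣ ∣ 2 ^ k := by
      rw [ZMod.card_units_eq_totient]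
      rcases Nat.eq_zero_or_pos k with h0 | h0
      · subst h0
        simp
      · rw [Nat.totient_prime_pow Nat.prime_two h0]
        simp only [Nat.add_one_sub_one, mul_one]
        exact pow_dvd_pow 2 (Nat.sub_le k 1)
    exact orderOf_dvd_iff_pow_eq_one.1 (orderOf_dvd_card.trans h2)
  have h2 : (g ^ 2 ^ k) ζ = ζ := by
    have h3 := hζ.autToPow_spec ℚ (g ^ 2 ^ k)
    rw [h1] at h3
    rw [← h3]
    have h4 : ((1 : (ZMod (2 ^ k))ˣ) : ZMod (2 ^ k)).val = 1 % 2 ^ k := by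
      rw [Units.val_one]
      have := ZMod.val_natCast (2 ^ k) 1
      rwa [Nat.cast_one] at this
    rw [h4]
    conv_rhs => rw [← pow_one ζ, ← Nat.mod_add_div 1 (2 ^ k), pow_add, pow_mul, hζ.pow_eq_one,
      one_pow, mul_one]
  obtain ⟨i, -, rfl⟩ := hζ.eq_pow_of_pow_eq_one hε
  rw [map_pow, h2]

lemma fix_pow (g : Ω ≃ₐ[ℚ] Ω) (k : ℕ) {x : Ω} {r : ℕ} (hr : r ≠ 0) (hx : x ^ 2 ^ k = (r : Ω)) :
    (g ^ 2 ^ (k + k)) x = x := by
  have hx0 : x ≠ 0 := by
    rintro rfl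
    rw [zero_pow (by positivity)] at hx
    exact hr (by exact_mod_cast hx.symm)
  set h := g ^ 2 ^ k with hh
  set ε := h x / x with hε
  have h1 : ε ^ 2 ^ k = 1 := by
    rw [hε, div_pow, ← map_pow, hx, map_natCast]
    exact div_self (by exact_mod_cast hr)
  have h2 : h ε = ε := fix_root g k h1
  have h3 : h x = ε * x := by
    rw [hε]
    field_simp
  have h4 : ∀ j : ℕ, (h ^ j) x = ε ^ j * x := by
    intro j
    induction j with
    | zero => simp
    | succ j ih =>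
      rw [pow_succ', AlgEquiv.mul_apply, ih, map_mul, map_pow, h2, h3]
      ring
  have h5 : g ^ 2 ^ (k + k) = h ^ 2 ^ k := by
    rw [hh, ← pow_mul, pow_add]
  rw [h5, h4, h1, one_mul]

end fix

variable {K : Type} [Field K] [NumberField K] {σ : K →+* ℂ} {δ : K}

lemma mover_iter {L : Type*} [Field L] {R : L → Prop} {t1 t2 t3 : L} (h : Three R t1 t2 t3)
    {A : Type*} [Field A] [Algebra A L] (g : L ≃ₐ[A] L)
    (hR : ∀ t, R t → R (g t)) (hm : ∀ t, R t → g t ≠ t) (j : ℕ) :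
    (∀ t, R t → R ((g ^ 2 ^ j) t)) ∧ ∀ t, R t → (g ^ 2 ^ j) t ≠ t := by
  induction j with
  | zero => simpa using ⟨hR, hm⟩
  | succ j ih =>
    have e : ∀ t, (g ^ 2 ^ (j + 1)) t = (g ^ 2 ^ j) ((g ^ 2 ^ j) t) := by
      intro t
      rw [pow_succ, mul_two, pow_add, AlgEquiv.mul_apply]
    refine ⟨fun t ht => ?_, fun t ht => ?_⟩
    · rw [e]
      exact ih.1 _ (ih.1 _ ht)
    · rw [e]
      exact sq_move h (g ^ 2 ^ j).injective ih.1 ih.2 t ht

/-- an automorphism over `K` that moves the roots and fixes the power roots -/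
theorem move_fix (h : IQ K σ δ) {a b : K} (hΔ : 4 * a ^ 3 + 27 * b ^ 2 ≠ 0)
    (hr : ∀ x : K, ¬ Ro a b x) (k : ℕ) :
    ∃ g : GF ℚ, g ∈ Pool.Agent.Y142.HH ℚ K ∧
      (∀ τ : GF ℚ, ∀ t : AlgebraicClosure ℚ, Ro (τ (emb ℚ K a)) (τ (emb ℚ K b)) t → g t ≠ t) ∧
      ∀ (x : AlgebraicClosure ℚ) (r : ℕ), r ≠ 0 → x ^ 2 ^ k = r → g x = x := by
  have hgal := isGal h
  obtain ⟨g, hg, hm⟩ := move_both h hΔ hr
  have hgK := conj_mem_HH (mem_HH_all hg)
  refine ⟨g ^ 2 ^ (k + k), Subgroup.pow_mem _ hg _, fun τ t ht => ?_,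
    fun x r hr0 hx => fix_pow g k hr0 hx⟩
  have hfix : ∀ y : K, g (τ (emb ℚ K y)) = τ (emb ℚ K y) := by
    intro y
    have h1 := mem_HH.1 (hgK τ) y
    have h2 : τ ((τ⁻¹ * g * τ) (emb ℚ K y)) = g (τ (emb ℚ K y)) := by
      show (τ * (τ⁻¹ * g * τ)) (emb ℚ K y) = (g * τ) (emb ℚ K y)
      congr 1
      group
    rw [← h2, h1]
  obtain ⟨t1, t2, t3, h3⟩ := three_of (L := AlgebraicClosure ℚ) (α := τ (emb ℚ K a))
    (β := τ (emb ℚ K b)) (by
      intro h1
      apply hΔ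
      apply (emb ℚ K).injective
      apply τ.injective
      simp only [map_add, map_mul, map_pow, map_ofNat, map_zero]
      exact h1)
  refine (mover_iter h3 g (fun t ht => ?_) (hm τ) (k + k)).2 t ht
  have := congrArg g ht
  simp only [map_add, map_mul, map_pow, map_zero, hfix] at this
  exact this

/-- the admissible primes with power residue conditions -/
def QR (h : IQ K σ δ) (a b n : 𝓞 K) (k : ℕ) (R : Finset ℕ) : Set ℕ :=
  {q | q ∈ QE h a b n ∧ PwR k R q}

theorem densR (h : IQ K σ δ) {a b n : 𝓞 K} (hΔ : 4 * a ^ 3 + 27 * b ^ 2 ≠ 0) (hn : n ≠ 0)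
    (hr : ∀ x : K, ¬ Ro (a : K) (b : K) x) (k : ℕ) (R : Finset ℕ) (hR : ∀ r ∈ R, r ≠ 0) :
    ∃ d : ℝ, 0 < d ∧ ∀ B : Set ℕ, B.Finite → ∀ᶠ N : ℕ in atTop,
      d * (N / Real.log N) ≤ Pool.Agent.K4H55.AB.Cnt.cA (QR h a b n k R \ B) N := by
  classical
  have hgal := isGal h
  have hΔK : 4 * (a : K) ^ 3 + 27 * (b : K) ^ 2 ≠ 0 := by
    intro h1
    apply hΔ
    apply RingOfIntegers.ext
    simp only [map_add, map_mul, map_pow, map_ofNat, map_zero]
    exact h1
  obtain ⟨g, hgH, hg, hgx⟩ := move_fix h hΔK hr k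
  have hgK : ∀ τ : GF ℚ, τ⁻¹ * g * τ ∈ Pool.Agent.Y142.HH ℚ K :=
    conj_mem_HH (mem_HH_all hgH)
  let S1 : Set (AlgebraicClosure ℚ) := {t | Ro (emb ℚ K (a : K)) (emb ℚ K (b : K)) t ∨
    Ro (emb ℚ K (cjK h a)) (emb ℚ K (cjK h b)) t}
  let S2 : Set (AlgebraicClosure ℚ) := ⋃ r ∈ insert 1 R, {x | x ^ 2 ^ k = (r : AlgebraicClosure ℚ)}
  let S : Set (AlgebraicClosure ℚ) := S1 ∪ S2
  have hS1 : S1.Finite := by
    have hfin : ∀ α β : AlgebraicClosure ℚ, {t | Ro α β t}.Finite := by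
      intro α β
      obtain ⟨t1, t2, t3, h1, h2, h3, hsp⟩ := ro_split α β
      refine ((Set.finite_singleton t1).union ((Set.finite_singleton t2).union
        (Set.finite_singleton t3))).subset ?_
      intro t ht
      have ht' : Ro α β t := ht
      unfold Ro at ht'
      rw [hsp] at ht'
      rcases mul_eq_zero.1 ht' with h4 | h4
      · rcases mul_eq_zero.1 h4 with h4 | h4
        · exact Or.inl (sub_eq_zero.1 h4)
        · exact Or.inr (Or.inl (sub_eq_zero.1 h4))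
      · exact Or.inr (Or.inr (sub_eq_zero.1 h4))
    exact (hfin _ _).union (hfin _ _)
  have hS2 : S2.Finite := by
    refine Set.Finite.biUnion (Finset.finite_toSet _) fun r _ => ?_
    have hp : (Polynomial.X ^ 2 ^ k - Polynomial.C (r : AlgebraicClosure ℚ)) ≠ 0 :=
      Polynomial.X_pow_sub_C_ne_zero (by positivity) _
    refine (Finset.finite_toSet (Polynomial.X ^ 2 ^ k -
      Polynomial.C (r : AlgebraicClosure ℚ)).roots.toFinset).subset fun x hx => ?_
    rw [Finset.mem_coe, Multiset.mem_toFinset, Polynomial.mem_roots hp]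
    have : x ^ 2 ^ k = (r : AlgebraicClosure ℚ) := hx
    simp [Polynomial.IsRoot, this]
  have hS : S.Finite := hS1.union hS2
  have hSf : Finite S := hS.to_subtype
  let E : IntermediateField ℚ (AlgebraicClosure ℚ) := IntermediateField.adjoin ℚ S
  have hE : FiniteDimensional ℚ E := IntermediateField.finiteDimensional_adjoin fun t _ =>
    ((AlgebraicClosure.isAlgebraic ℚ).isAlgebraic t).isIntegral
  let W1 : Subgroup (GF ℚ) := E.fixingSubgroup
  have hW1 : IsOpen (W1 : Set (GF ℚ)) := E.fixingSubgroup_isOpen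
  let W : Subgroup (GF ℚ) := W1 ⊓ Pool.Agent.Y142.HH ℚ K
  have hW : IsOpen (W : Set (GF ℚ)) := by
    have e1 : (W : Set (GF ℚ)) = (W1 : Set (GF ℚ)) ∩ (Pool.Agent.Y142.HH ℚ K : Set (GF ℚ)) := by
      rw [Subgroup.coe_inf]
    rw [e1]
    exact hW1.inter isOpen_HH
  have hWf : Finite (GF ℚ ⧸ W) := Subgroup.quotient_finite_of_isOpen W hW
  have hWi : W.FiniteIndex := Subgroup.finiteIndex_of_finite_quotient
  have hWc : IsClosed (W : Set (GF ℚ)) := W.isClosed_of_isOpen hW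
  have hU : IsOpen (W.normalCore : Set (GF ℚ)) :=
    Subgroup.isOpen_of_isClosed_of_finiteIndex _ (W.normalCore_isClosed hWc)
  obtain ⟨d, hd, h1⟩ := density_lower W.normalCore hU g
  refine ⟨d / 2, by positivity, fun B hB => ?_⟩
  obtain ⟨x0, hx0⟩ := h.cplx
  obtain ⟨y0, hy0⟩ : ∃ y : 𝓞 K, y - tau h y ≠ 0 := by
    by_contra hcon
    push Not at hcon
    apply hx0
    obtain ⟨y, s, hs, hys⟩ := IsFractionRing.div_surjective (A := 𝓞 K) x0
    have hc : ∀ z : 𝓞 K, conj (σ z) = σ z := by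
      intro z
      have := hcon z
      rw [sub_eq_zero] at this
      rw [← sg_tau h, ← this]
    rw [← hys, map_div₀, map_div₀]
    have e1 := hc y
    have e2 := hc s
    rw [e1, e2]
  let B0 : Set ℕ := {2} ∪ ({q : ℕ | q.Prime ∧ ∃ v : HeightOneSpectrum (𝓞 K), (q : 𝓞 K) ∈ v.asIdeal ∧
      2 * (4 * a ^ 3 + 27 * b ^ 2) ∈ v.asIdeal} ∪ ({q : ℕ | q.Prime ∧ ∃ v : HeightOneSpectrum (𝓞 K),
      (q : 𝓞 K) ∈ v.asIdeal ∧ n ∈ v.asIdeal} ∪ ({q : ℕ | q.Prime ∧ ∃ v : HeightOneSpectrum (𝓞 K),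
      (q : 𝓞 K) ∈ v.asIdeal ∧ y0 - tau h y0 ∈ v.asIdeal} ∪ ⋃ r ∈ R, {q : ℕ | q ∣ r})))
  have hB0 : B0.Finite := (Set.finite_singleton 2).union ((bad_fin h (mul_ne_zero two_ne_zero hΔ)).union
    ((bad_fin h hn).union ((bad_fin h hy0).union (Set.Finite.biUnion (Finset.finite_toSet _)
      fun r hr => (Set.finite_Iic r).subset fun q hq => Nat.le_of_dvd
        (Nat.pos_of_ne_zero (hR r hr)) hq))))
  filter_upwards [remove hd h1 (hB.union hB0)] with N hN
  refine hN.trans ?_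
  have h2 : X0 W.normalCore g \ (B ∪ B0) ⊆ QR h a b n k R \ B := by
    rintro q ⟨⟨hq, P, s, hP, hqP, hs, hu⟩, hqB⟩
    rw [Set.mem_union, not_or] at hqB
    refine ⟨?_, hqB.1⟩
    have hqB2 := hqB.2
    simp only [B0, Set.mem_union, Set.mem_singleton_iff, not_or] at hqB2
    obtain ⟨q2, qd, qn, qy, qr⟩ := hqB2
    have hsW : g⁻¹ * s ∈ W := W.normalCore_le hu
    have hsK : ∀ τ : GF ℚ, τ⁻¹ * s * τ ∈ Pool.Agent.Y142.HH ℚ K := by
      intro τ
      have h4 : τ⁻¹ * s * τ = (τ⁻¹ * g * τ) * (τ⁻¹ * (g⁻¹ * s) * τ) := by group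
      rw [h4]
      refine Subgroup.mul_mem _ (hgK τ) ?_
      have h5 : τ⁻¹ * (g⁻¹ * s) * τ ∈ W := by
        have h6 := hu τ⁻¹
        rwa [inv_inv] at h6
      exact (Subgroup.mem_inf.1 h5).2
    have hsg : ∀ t ∈ S, s t = g t := by
      intro t htS
      have h5 : (g⁻¹ * s) t = t := by
        have h6 := (IntermediateField.mem_fixingSubgroup_iff E (g⁻¹ * s)).1
          (Subgroup.mem_inf.1 hsW).1
        exact h6 t (IntermediateField.subset_adjoin ℚ S htS)
      have h7 : g ((g⁻¹ * s) t) = s t := by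
        show (g * (g⁻¹ * s)) t = s t
        rw [mul_inv_cancel_left]
      rw [← h7, h5]
    have hsm : ∀ τ : GF ℚ, ∀ t : AlgebraicClosure ℚ,
        Ro (τ (emb ℚ K (a : K))) (τ (emb ℚ K (b : K))) t → s t ≠ t := by
      intro τ t ht
      have htS : t ∈ S1 := by
        rcases tau_emb h τ with h3 | h3
        · left
          rw [h3, h3] at ht
          exact ht
        · right
          rw [h3, h3] at ht
          exact ht
      rw [hsg t (Or.inl htS)]
      exact hg τ t ht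
    have hsx : ∀ r ∈ insert 1 R, ∀ x : AlgebraicClosure ℚ, x ^ 2 ^ k = (r : AlgebraicClosure ℚ) →
        s x = x := by
      intro r hr x hx
      rw [hsg x (Or.inr (Set.mem_biUnion (Finset.mem_coe.2 hr) hx))]
      refine hgx x r ?_ hx
      rcases Finset.mem_insert.1 hr with rfl | h3
      · exact one_ne_zero
      · exact hR r h3
    have hk1 : 2 ^ k ∣ q - 1 := by
      have hn : NeZero (2 ^ k) := ⟨by positivity⟩
      have hn' : NeZero ((2 ^ k : ℕ) : AlgebraicClosure ℚ) :=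
        ⟨by exact_mod_cast (pow_ne_zero k two_ne_zero)⟩
      obtain ⟨ζ, hζ⟩ : ∃ ζ : AlgebraicClosure ℚ, IsPrimitiveRoot ζ (2 ^ k) :=
        HasEnoughRootsOfUnity.exists_primitiveRoot (AlgebraicClosure ℚ) (2 ^ k)
      have hζi : IsIntegral ℤ ζ := hζ.isIntegral (by positivity)
      let z : OO ℚ := ⟨ζ, hζi⟩
      have hz : z ^ 2 ^ k = 1 := by
        apply RingOfIntegers.ext
        simp only [map_pow, map_one]
        exact hζ.pow_eq_one
      have hsz : s • z = z := by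
        apply RingOfIntegers.ext
        exact hsx 1 (Finset.mem_insert_self _ _) ζ (by rw [hζ.pow_eq_one, Nat.cast_one])
      have h3 := hs z
      rw [hsz] at h3
      have h4 : ((2 ^ k : ℕ) : OO ℚ) ∉ P := by
        intro h5
        have h6 := Pool.Agent.K4H55.AB.int_mem hq hP hqP (m := ((2 ^ k : ℕ) : ℤ)) (by
          rw [Int.cast_natCast]
          exact h5)
        rw [Int.natCast_dvd_natCast] at h6
        exact q2 ((Nat.prime_dvd_prime_iff_eq hq Nat.prime_two).1 (hq.dvd_of_dvd_pow h6))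
      have h5 : z = z ^ q := sep (m := 2 ^ k) hz (by
        rw [← pow_mul, mul_comm, pow_mul, hz, one_pow]) h3 h4
      have h6 : ζ ^ 1 = ζ ^ q := by
        rw [pow_one]
        have := congrArg (fun y : OO ℚ => (y : AlgebraicClosure ℚ)) h5
        simp only [map_pow] at this
        exact this
      have h7 := prim_mod hζ (by positivity) h6
      rw [ZMod.natCast_eq_natCast_iff] at h7
      exact (Nat.modEq_iff_dvd' hq.one_le).1 h7
    refine ⟨⟨⟨hq, q2, fun v hv => deg_one hq hP hqP hs hsK v hv, fun v hv => ⟨y0, fun hy => ?_⟩⟩,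
      fun v hv => ?_⟩, hk1, fun r hr => ?_⟩
    · exact qy ⟨hq, v, hv, hy⟩
    · have hdv : 2 * (4 * a ^ 3 + 27 * b ^ 2) ∉ v.asIdeal := fun hh => qd ⟨hq, v, hv, hh⟩
      exact ⟨hdv, fun hh => qn ⟨hq, v, hv, hh⟩,
        fun X => no_rootK hq hP hqP hs hsK hsm v hv hdv X⟩
    · have hqr : ¬ q ∣ r := fun h3 => qr (Set.mem_biUnion (Finset.mem_coe.2 hr) h3)
      obtain ⟨x, hx⟩ := IsAlgClosed.exists_pow_nat_eq (r : AlgebraicClosure ℚ)
        (n := 2 ^ k) (by positivity)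
      have hxi : IsIntegral ℤ x := by
        refine IsIntegral.of_pow (n := 2 ^ k) (by positivity) ?_
        rw [hx]
        have h3 : IsIntegral ℤ (algebraMap ℤ (AlgebraicClosure ℚ) (r : ℤ)) := isIntegral_algebraMap
        rwa [map_natCast] at h3
      let z : OO ℚ := ⟨x, hxi⟩
      have hz : z ^ 2 ^ k = (r : OO ℚ) := by
        apply RingOfIntegers.ext
        simp only [map_pow, map_natCast]
        exact hx
      have hsz : s • z = z := by
        apply RingOfIntegers.ext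
        exact hsx r (Finset.mem_insert_of_mem hr) x hx
      have h3 := hs z
      rw [hsz] at h3
      have hPp := hP.isPrime
      have hrP : (r : OO ℚ) ∉ P := by
        intro h5
        have h6 := Pool.Agent.K4H55.AB.int_mem hq hP hqP (m := (r : ℤ)) (by
          rw [Int.cast_natCast]
          exact h5)
        exact hqr (Int.natCast_dvd_natCast.1 h6)
      obtain ⟨m, hm⟩ := hk1
      have h4 : z - z ^ q = z * (1 - (r : OO ℚ) ^ m) := by
        have e : q = 1 + 2 ^ k * m := by have := hq.one_le; omega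
        conv_lhs => rw [e, pow_add, pow_one, pow_mul, hz]
        ring
      rw [h4] at h3
      have h5 : 1 - (r : OO ℚ) ^ m ∈ P := by
        rcases hPp.mem_or_mem h3 with h6 | h6
        · exfalso
          apply hrP
          rw [← hz]
          exact P.pow_mem_of_mem h6 _ (by positivity)
        · exact h6
      have h6 := Pool.Agent.K4H55.AB.int_mem hq hP hqP (m := (1 - (r : ℤ) ^ m)) (by
        push_cast
        exact h5)
      have h7 := (ZMod.intCast_zmod_eq_zero_iff_dvd _ q).2 h6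
      push_cast at h7
      rw [sub_eq_zero] at h7
      refine cyc_pow hq ⟨m, hm⟩ (fun h8 => hqr ((ZMod.natCast_eq_zero_iff r q).1 h8)) ?_
      rw [hm, Nat.mul_div_cancel_left _ (by positivity)]
      exact h7.symm
  exact_mod_cast cA_mono h2 N

end Pool.Agent.U81.AT
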