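import Pool.Agent.U81.AT.Res
import Pool.Agent.U81.AT.Hensel

/-!
The embedding in the completion at a place with trivial decomposition group.
-/

set_option autoImplicit false

namespace Pool.Agent.U81.AT

open NumberField IsDedekindDomain Pointwise WithZero Polynomial
open Pool.Agent.K4H55.BD (low mem_low)
open Pool.Agent.U81.MQ (ine dec nums)

variable {K F : Type} [Field K] [NumberField K] [Field F] [NumberField F] [Algebra K F]

/-- an element which is in the place but congruent to one at its conjugates -/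
lemma exists_iso (u : HeightOneSpectrum (𝓞 F)) (hd : ∀ σ ∈ dec (K := K) u, σ = 1) :
    ∃ α : 𝓞 F, α ∈ u.asIdeal ∧ ∀ σ : F ≃ₐ[K] F, σ ≠ 1 → σ • α - 1 ∈ u.asIdeal := by
  classical
  let P : (F ≃ₐ[K] F) → Ideal (𝓞 F) := fun σ =>
    u.asIdeal.comap (MulSemiringAction.toRingHom (F ≃ₐ[K] F) (𝓞 F) σ)
  have hmem : ∀ σ (x : 𝓞 F), x ∈ P σ ↔ σ • x ∈ u.asIdeal := fun σ x => Iff.rfl
  have hp : ∀ σ, Prime (P σ) := by
    intro σ
    have h1 : (P σ).IsPrime := by
      have := u.isPrime
      exact Ideal.comap_isPrime _ _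
    refine Ideal.prime_of_isPrime (fun h0 => ?_) h1
    obtain ⟨x, hx, hx0⟩ := Submodule.exists_mem_ne_zero_of_ne_bot u.ne_bot
    have h2 : σ⁻¹ • x ∈ P σ := by
      rw [hmem, smul_inv_smul]
      exact hx
    rw [h0, Ideal.mem_bot, smul_eq_zero_iff_eq] at h2
    exact hx0 h2
  have hne : ∀ σ τ, σ ≠ τ → P σ ≠ P τ := by
    intro σ τ hst h1
    apply hst
    have h2 : σ * τ⁻¹ ∈ dec (K := K) u := by
      show (σ * τ⁻¹) • u.asIdeal = u.asIdeal
      have h3 : ∀ y, y ∈ u.asIdeal ↔ (σ * τ⁻¹) • y ∈ u.asIdeal := by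
        intro y
        rw [mul_smul, ← hmem σ, h1, hmem, smul_inv_smul]
      apply le_antisymm
      · intro x hx
        rw [Ideal.mem_pointwise_smul_iff_inv_smul_mem] at hx
        have := (h3 _).1 hx
        rwa [smul_inv_smul] at this
      · intro x hx
        rw [Ideal.mem_pointwise_smul_iff_inv_smul_mem]
        apply (h3 _).2
        rwa [smul_inv_smul]
    have h4 := hd _ h2
    rwa [mul_inv_eq_one] at h4
  obtain ⟨α, hα⟩ := IsDedekindDomain.exists_forall_sub_mem_ideal
    (s := (Finset.univ : Finset (F ≃ₐ[K] F))) P (fun _ => 1) (fun i _ => hp i)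
    (fun i _ j _ hij => hne i j hij) (fun i => if i.1 = 1 then 0 else 1)
  refine ⟨α, ?_, fun σ hσ => ?_⟩
  · have := hα 1 (Finset.mem_univ _)
    rw [if_pos rfl, sub_zero, pow_one, hmem, one_smul] at this
    exact this
  · have := hα σ (Finset.mem_univ _)
    rw [if_neg hσ, pow_one, hmem, smul_sub, smul_one] at this
    exact this

variable [IsGalois K F]

/-- **The embedding.** -/
theorem exists_emb (u : HeightOneSpectrum (𝓞 F)) (hd : ∀ σ ∈ dec (K := K) u, σ = 1) :
    Nonempty (F →ₐ[K] (low (K := K) u).adicCompletion K) := by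
  classical
  obtain ⟨α, hα, hα'⟩ := exists_iso (K := K) u hd
  set v := low (K := K) u with hv
  -- the element generates the field
  have htop : IntermediateField.adjoin K {(α : F)} = ⊤ := by
    rw [← IsGalois.fixedField_fixingSubgroup (IntermediateField.adjoin K {(α : F)})]
    have h1 : (IntermediateField.adjoin K {(α : F)}).fixingSubgroup = ⊥ := by
      rw [eq_bot_iff]
      intro σ hσ
      rw [Subgroup.mem_bot]
      by_contra hne
      have h2 : σ • α = α := by
        apply RingOfIntegers.ext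
        exact (IntermediateField.mem_fixingSubgroup_iff _ σ).1 hσ _
          (IntermediateField.mem_adjoin_simple_self K (α : F))
      have h3 := hα' σ hne
      rw [h2] at h3
      apply u.isPrime.ne_top
      rw [Ideal.eq_top_iff_one]
      have h4 := u.asIdeal.sub_mem hα h3
      rwa [sub_sub_cancel] at h4
    rw [h1, IntermediateField.fixedField_bot]
  -- its polynomial
  obtain ⟨f, hf⟩ := (mem_lifts _).1 (Algebra.IsInvariant.charpoly_mem_lifts (𝓞 K) (𝓞 F)
    (F ≃ₐ[K] F) α)
  set g : (𝓞 F)[X] := MulSemiringAction.charpoly (F ≃ₐ[K] F) α with hg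
  have hinj : Function.Injective (algebraMap (𝓞 K) (𝓞 F)) :=
    FaithfulSMul.algebraMap_injective (𝓞 K) (𝓞 F)
  have hgm : g.Monic := MulSemiringAction.monic_charpoly _ _
  have hfm : f.Monic := by
    apply monic_of_injective hinj
    rw [hf]
    exact hgm
  have hgdeg : g.natDegree = Nat.card (F ≃ₐ[K] F) := by
    rw [hg, MulSemiringAction.charpoly_eq, natDegree_prod_of_monic _ _ fun i _ => monic_X_sub_C _]
    simp [Nat.card_eq_fintype_card]
  have hfdeg : f.natDegree = Nat.card (F ≃ₐ[K] F) := by
    rw [← hgdeg, ← hf, natDegree_map_eq_of_injective hinj]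
  have hroot : aeval (α : F) (f.map (algebraMap (𝓞 K) K)) = 0 := by
    have h1 : g.eval α = 0 := MulSemiringAction.eval_charpoly _ _
    rw [← hf, eval_map] at h1
    have h2 := congrArg (algebraMap (𝓞 F) F) h1
    rw [map_zero, hom_eval₂] at h2
    rw [aeval_map_algebraMap, aeval_def]
    exact h2
  have hint : IsIntegral K (α : F) := IsIntegral.of_finite K _
  have hmin : minpoly K (α : F) = f.map (algebraMap (𝓞 K) K) := by
    have h1 := minpoly.dvd K (α : F) hroot
    refine (eq_of_monic_of_dvd_of_natDegree_le (minpoly.monic hint) (hfm.map _) h1 ?_).symm ▸ rfl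
    rw [hfm.natDegree_map, hfdeg]
    have h2 : Module.finrank K (IntermediateField.adjoin K {(α : F)}) =
        (minpoly K (α : F)).natDegree := IntermediateField.adjoin.finrank hint
    rw [← h2, htop, IntermediateField.finrank_top', IsGalois.card_aut_eq_finrank]
  -- reduction modulo `u`
  have hred : g.map (Ideal.Quotient.mk u.asIdeal) =
      X * ∏ σ ∈ (Finset.univ : Finset (F ≃ₐ[K] F)).erase 1, (X - C 1) := by
    rw [hg, MulSemiringAction.charpoly_eq, Polynomial.map_prod,
      ← Finset.mul_prod_erase _ _ (Finset.mem_univ (1 : F ≃ₐ[K] F))]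
    congr 1
    · rw [Polynomial.map_sub, map_X, map_C, one_smul, Ideal.Quotient.eq_zero_iff_mem.2 hα]
      simp
    · refine Finset.prod_congr rfl fun σ hσ => ?_
      rw [Polynomial.map_sub, map_X, map_C]
      have h1 := hα' σ (Finset.ne_of_mem_erase hσ)
      rw [Ideal.Quotient.mk_eq_mk_iff_sub_mem _ _ |>.2 h1]
      simp
  have hmap : ∀ p : (𝓞 K)[X], ∀ x : 𝓞 K, p.eval x ∈ v.asIdeal ↔
      (((p.map (algebraMap (𝓞 K) (𝓞 F))).map (Ideal.Quotient.mk u.asIdeal)).eval
        (Ideal.Quotient.mk u.asIdeal (algebraMap (𝓞 K) (𝓞 F) x))) = 0 := by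
    intro p x
    rw [mem_low, ← Ideal.Quotient.eq_zero_iff_mem, eval_map_apply, eval_map_apply]
  have h0 : f.eval 0 ∈ v.asIdeal := by
    rw [hmap, hf, hred]
    simp
  have h1 : (derivative f).eval 0 ∉ v.asIdeal := by
    have := u.isPrime
    rw [hmap, ← derivative_map, hf, ← derivative_map, hred]
    simp only [derivative_mul, derivative_X, map_zero, eval_add, eval_mul, eval_X, zero_mul,
      add_zero, eval_one, one_mul]
    rw [eval_prod]
    simp only [eval_sub, eval_X, map_one, eval_one, zero_sub, Finset.prod_const]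
    exact pow_ne_zero _ (neg_ne_zero.2 one_ne_zero)
  -- Hensel's lemma
  let ι : 𝓞 K →+* v.adicCompletion K := (algebraMap K (v.adicCompletion K)).comp (algebraMap (𝓞 K) K)
  have hval : ∀ x : 𝓞 K, Valued.v (Γ₀ := WithZero (Multiplicative ℤ)) (ι x) = v.valuation K (x : K) :=
    fun x => HeightOneSpectrum.valuedAdicCompletion_eq_valuation' (v := v) (x : K)
  obtain ⟨z, hz, -⟩ := HS.hensel (L := v.adicCompletion K) (f.map ι) (a := ι 0) (fun i => by
      rw [coeff_map, hval]
      exact v.valuation_le_one _) (by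
      rw [map_zero, map_zero]
      exact zero_le_one) (by
      rw [eval_map_apply, hval, HeightOneSpectrum.valuation_lt_one_iff_mem]
      exact h0) (by
      rw [derivative_map, eval_map_apply, hval]
      refine le_antisymm (v.valuation_le_one _) (not_lt.1 fun h2 => h1 ?_)
      rwa [HeightOneSpectrum.valuation_lt_one_iff_mem] at h2)
  have hzr : z ∈ (minpoly K (α : F)).aroots (v.adicCompletion K) := by
    rw [mem_aroots]
    refine ⟨(minpoly.monic hint).ne_zero, ?_⟩
    rw [hmin, aeval_map_algebraMap, aeval_def]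
    rw [eval_map] at hz
    exact hz
  let φ := (IntermediateField.algHomAdjoinIntegralEquiv K hint).symm ⟨z, hzr⟩
  exact ⟨(φ.comp (IntermediateField.equivOfEq htop.symm).toAlgHom).comp
    IntermediateField.topEquiv.symm.toAlgHom⟩

end Pool.Agent.U81.AT
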