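import Pool.Agent.U81.AT.Chr
import Pool.Agent.K4H55.CX.Up

/-!
The decomposition law.
-/

set_option autoImplicit false

namespace Pool.Agent.U81.AT

open NumberField IsDedekindDomain Pointwise WithZero
open Pool.Agent.K4H55.BD (low mem_low Spl tau mul_tau tau_tau tau_int norm_eq tv mem_tv int_mem tv_ne
  mem_tv_nat eq_or_tv)
open Pool.Agent.K4H55.BI (IQ gen gen_span gen_dvd)
open Pool.Agent.K4H55.CX (CH CF Law ord exists_above)
open Pool.Agent.U81.MQ (ine dec nums card_ann)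

variable {K F M : Type} [Field K] [NumberField K] [Field F] [NumberField F] [Field M]
  [NumberField M] [Algebra K F] [Algebra F M] [Algebra K M] [IsScalarTower K F M]
  [IsGalois K F] [IsGalois K M] {S : Finset ℕ} {ζ : ℕ → 𝓞 M} {σ : K →+* ℂ} {δ : K}

lemma cast_eq_one_of {q : ℕ} {n : ℕ} (h : (n : ZMod q) = ((1 : ℤ) : ZMod q)) :
    ((1 : (ZMod q)ˣ) : ZMod q) = n := by
  rw [h]
  simp

/-- a single place is isolated in a finite set -/
lemma crt (T : Finset (HeightOneSpectrum (𝓞 K))) (v : HeightOneSpectrum (𝓞 K)) (b : 𝓞 K) :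
    ∃ x : 𝓞 K, x - b ∈ v.asIdeal ∧ ∀ v' ∈ T, v' ≠ v → x - 1 ∈ v'.asIdeal := by
  classical
  obtain ⟨x, hx⟩ := IsDedekindDomain.exists_forall_sub_mem_ideal (s := insert v T)
    (fun v : HeightOneSpectrum (𝓞 K) => v.asIdeal) (fun _ => 1) (fun i _ => i.prime)
    (fun i _ j _ hij h => hij (HeightOneSpectrum.ext h))
    (fun i => if i.1 = v then b else 1)
  refine ⟨x, ?_, fun v' hv' hne => ?_⟩
  · have := hx v (Finset.mem_insert_self _ _)
    rw [if_pos rfl, pow_one] at this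
    exact this
  · have := hx v' (Finset.mem_insert_of_mem hv')
    rw [if_neg hne, pow_one] at this
    exact this

theorem ch_fn [IsPrincipalIdealRing (𝓞 K)] (h : Dat K S ζ) (hI : IQ K σ δ) (hS : ∀ q ∈ S, Spl hI q)
    {k : ℕ} (hk : ∀ τ : F ≃ₐ[K] F, τ ^ 2 ^ k = 1) (χ : (F ≃ₐ[K] F) →* ℂˣ) :
    CH (TT h χ) (fn h χ) := by
  classical
  refine ⟨?_, fun x y => ?_, fn_zero h hI hS χ, fun x y hxy => ?_, fun u hu => ?_, fun v hv => ?_,
    ⟨k, fun x hx => ?_⟩⟩
  · unfold fn
    exact Finset.prod_eq_one fun q _ => by rw [nn_one, vl_one]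
  · unfold fn
    rw [← Finset.prod_mul_distrib]
    exact Finset.prod_congr rfl fun q _ => by rw [nn_mul, vl_mul]
  · unfold fn
    refine Finset.prod_congr rfl fun q _ => ?_
    by_cases hq : ps h χ q = 1
    · rw [hq, vl_one_left, vl_one_left]
    · apply vl_congr
      obtain ⟨v, hv⟩ := exists_over (M := K) q.1 (h.cyc.pr q q.2)
      have h1 : x - y ∈ v.asIdeal := hxy v (mem_TT.2 ⟨q, hq, hv⟩)
      have h2 : x - y ∈ (tv hI v).asIdeal := hxy _ (mem_TT.2 ⟨q, hq, mem_tv_nat hI hv⟩)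
      rw [mem_tv, map_sub] at h2
      have h3 := nn_congr hI (hS q q.2) hv h1 h2 (m := (nn y : ℤ)) (by
        rw [Int.cast_natCast, nn_tau hI, sub_self]
        exact v.asIdeal.zero_mem)
      rw [h3, Int.cast_natCast]
  · unfold fn
    exact Finset.prod_eq_one fun q _ => by rw [nn_unit hu, vl_one]
  · obtain ⟨q, hq, hqv⟩ := mem_TT.1 hv
    obtain ⟨a, ha⟩ : ∃ a, ps h χ q a ≠ 1 := by
      by_contra hcon
      push Not at hcon
      exact hq (MonoidHom.ext hcon)
    have hqp := h.cyc.pr q q.2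
    have : NeZero (q : ℕ) := ⟨hqp.ne_zero⟩
    obtain ⟨x, hx1, hx2⟩ := crt (insert (tv hI v) (TT h χ)) v (((a : ZMod (q : ℕ)).val : ℕ) : 𝓞 K)
    have hx3 : x - 1 ∈ (tv hI v).asIdeal :=
      hx2 _ (Finset.mem_insert_self _ _) (tv_ne hI (hS q q.2) hqv)
    have hval : ∀ q' : S, vl (ps h χ q') (nn x) = if q' = q then ((ps h χ q a : ℂˣ) : ℂ) else 1 := by
      intro q'
      by_cases hqq : q' = q
      · subst hqq
        rw [if_pos rfl]
        apply vl_unit
        rw [mem_tv, map_sub, map_one] at hx3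
        have h3 := nn_congr hI (hS q' q'.2) hqv hx1 hx3 (m := ((a : ZMod (q' : ℕ)).val : ℤ)) (by
          rw [Int.cast_natCast, mul_one, sub_self]
          exact v.asIdeal.zero_mem)
        rw [h3, Int.cast_natCast, ZMod.natCast_zmod_val]
      · rw [if_neg hqq]
        by_cases hq1 : ps h χ q' = 1
        · rw [hq1, vl_one_left]
        · obtain ⟨w, hw⟩ := exists_over (M := K) q'.1 (h.cyc.pr q' q'.2)
          have hne : ∀ w : HeightOneSpectrum (𝓞 K), ((q' : ℕ) : 𝓞 K) ∈ w.asIdeal → w ≠ v := by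
            rintro w hw rfl
            have h4 : (q' : ℕ) ≠ q := fun h5 => hqq (Subtype.ext h5)
            have h5 := (int_mem hqp hqv (n := ((q' : ℕ) : ℤ))).1 (by
              rw [Int.cast_natCast]
              exact hw)
            rw [Int.natCast_dvd_natCast, Nat.prime_dvd_prime_iff_eq hqp (h.cyc.pr q' q'.2)] at h5
            exact h4 h5.symm
          have hw' := mem_tv_nat hI hw
          have h1 : x - 1 ∈ w.asIdeal :=
            hx2 w (Finset.mem_insert_of_mem (mem_TT.2 ⟨q', hq1, hw⟩)) (hne w hw)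
          have h2 : x - 1 ∈ (tv hI w).asIdeal :=
            hx2 _ (Finset.mem_insert_of_mem (mem_TT.2 ⟨q', hq1, hw'⟩)) (hne _ hw')
          rw [mem_tv, map_sub, map_one] at h2
          have h3 := nn_congr hI (hS q' q'.2) hw h1 h2 (m := 1) (by
            rw [Int.cast_one, mul_one, sub_self]
            exact w.asIdeal.zero_mem)
          rw [vl_unit (cast_eq_one_of h3), map_one, Units.val_one]
    have hprod : fn h χ x = ((ps h χ q a : ℂˣ) : ℂ) := by
      unfold fn
      rw [Finset.prod_congr rfl fun q' _ => hval q', Finset.prod_ite_eq' Finset.univ q,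
        if_pos (Finset.mem_univ _)]
    refine ⟨x, fun v' hv' hne => hx2 v' (Finset.mem_insert_of_mem hv') hne, ?_, ?_⟩
    · rw [hprod]
      exact (ps h χ q a).ne_zero
    · rw [hprod]
      intro h6
      exact ha (Units.ext (by rw [h6, Units.val_one]))
  · unfold fn at hx ⊢
    rw [← Finset.prod_pow]
    refine Finset.prod_eq_one fun q _ => vl_pow (ps_pow h χ hk q) ?_
    exact (Finset.prod_ne_zero_iff.1 hx) q (Finset.mem_univ _)

theorem cf_fn [IsPrincipalIdealRing (𝓞 K)] (h : Dat K S ζ) (hI : IQ K σ δ) (hS : ∀ q ∈ S, Spl hI q)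
    {k : ℕ} (hk : ∀ τ : F ≃ₐ[K] F, τ ^ 2 ^ k = 1) :
    CF (fun χ : (F ≃ₐ[K] F) →* ℂˣ => TT h χ) (fun χ => fn h χ) := by
  refine ⟨fun χ => ch_fn h hI hS hk χ, fun χ χ' x h1 h2 => ?_⟩
  unfold fn at h1 h2 ⊢
  rw [← Finset.prod_mul_distrib]
  refine Finset.prod_congr rfl fun q _ => ?_
  rw [ps_mul]
  exact vl_mul_left ((Finset.prod_ne_zero_iff.1 h1) q (Finset.mem_univ _))
    ((Finset.prod_ne_zero_iff.1 h2) q (Finset.mem_univ _))

/-- unramified characters -/
theorem unr_iff (h : Dat K S ζ) (u : HeightOneSpectrum (𝓞 M)) (χ : (F ≃ₐ[K] F) →* ℂˣ) :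
    (∀ τ ∈ ine (K := K) (low (K := F) u), χ τ = 1) ↔
      ∀ q : S, ((q : ℕ) : 𝓞 M) ∈ u.asIdeal → ps h χ q = 1 := by
  constructor
  · intro h1 q hq
    ext a
    obtain ⟨s, hs, hs1, hs2⟩ := ine_surj h.cyc u q.2 hq (h.un q q.2 _ (low_nat.2 hq)) a
    have h2 := h1 _ (res_ine hs)
    rw [ps_prod h] at h2
    rw [Finset.prod_eq_single q (fun q' _ hne => by
      rw [hs2 q' q'.2 fun h3 => hne (Subtype.ext h3), map_one]) (fun h3 =>
        absurd (Finset.mem_univ _) h3), hs1] at h2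
    rw [h2]
    rfl
  · intro h1 τ hτ
    obtain ⟨s, hs, rfl⟩ := ine_lift u hτ
    rw [ps_prod h]
    refine Finset.prod_eq_one fun q _ => ?_
    by_cases hq : ((q : ℕ) : 𝓞 M) ∈ u.asIdeal
    · rw [h1 q hq]
      rfl
    · rw [cy_ine h.cyc u q.2 hq hs, map_one]

variable [IsPrincipalIdealRing (𝓞 K)]

/-- the nonzero values -/
theorem ne_iff (h : Dat K S ζ) (hI : IQ K σ δ) (hS : ∀ q ∈ S, Spl hI q)
    (u : HeightOneSpectrum (𝓞 M)) (χ : (F ≃ₐ[K] F) →* ℂˣ) :
    fn h χ (gen (low (K := K) u)) ≠ 0 ↔ ∀ τ ∈ ine (K := K) (low (K := F) u), χ τ = 1 := by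
  rw [unr_iff h, Ne, fn_zero h hI hS]
  push Not
  constructor
  · intro h1 q hq
    by_contra h2
    exact h1 _ (mem_TT.2 ⟨q, h2, low_nat.2 hq⟩) (gen_dvd.1 dvd_rfl)
  · intro h1 v hv hg
    obtain ⟨q, hq, hqv⟩ := mem_TT.1 hv
    have h2 : v = low (K := K) u := by
      have h3 : (low (K := K) u).asIdeal ≤ v.asIdeal := by
        rw [← gen_span (low (K := K) u), Ideal.span_singleton_le_iff_mem]
        exact hg
      have h4 := ((low (K := K) u).isPrime.isMaximal (low (K := K) u).ne_bot).eq_of_le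
        v.isPrime.ne_top h3
      exact (HeightOneSpectrum.ext h4).symm
    subst h2
    exact hq (h1 q (low_nat.1 hqv))

/-- the value at a place -/
theorem val_frob (h : Dat K S ζ) (u : HeightOneSpectrum (𝓞 M)) {φ : M ≃ₐ[K] M} (hφ : Frob K u φ)
    (χ : (F ≃ₐ[K] F) →* ℂˣ) (hχ : ∀ τ ∈ ine (K := K) (low (K := F) u), χ τ = 1) :
    fn h χ (gen (low (K := K) u)) = ((χ (res K F M φ) : ℂˣ) : ℂ) := by
  rw [ps_prod h]
  unfold fn
  rw [Units.coe_prod]
  refine Finset.prod_congr rfl fun q _ => ?_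
  rw [nn_gen]
  by_cases hq : ((q : ℕ) : 𝓞 M) ∈ u.asIdeal
  · rw [(unr_iff h u χ).1 hχ q hq, vl_one_left]
    rfl
  · exact vl_unit (cy_frob h.cyc u q.2 hq (hφ.2 (ζ q)))

/-- **The decomposition law.** -/
theorem law_fn (h : Dat K S ζ) (hI : IQ K σ δ) (hS : ∀ q ∈ S, Spl hI q) :
    Law F (fun χ : (F ≃ₐ[K] F) →* ℂˣ => fn h χ) := by
  classical
  have hcomm : ∀ a b : F ≃ₐ[K] F, a * b = b * a := by
    intro a b
    obtain ⟨s, rfl⟩ := res_surj (K := K) (F := F) (M := M) a
    obtain ⟨t, rfl⟩ := res_surj (K := K) (F := F) (M := M) b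
    rw [← map_mul, ← map_mul, h.cyc.comm]
  have hfc : Finite ((F ≃ₐ[K] F) →* ℂˣ) := inferInstance
  -- for a place of `M`
  have key : ∀ u : HeightOneSpectrum (𝓞 M), ∃ e f g : ℕ, 0 < e ∧ 0 < f ∧
      g = Nat.card {w : HeightOneSpectrum (𝓞 F) // low (K := K) w = low (K := K) u} ∧
      g * (e * f) = Nat.card (F ≃ₐ[K] F) ∧
      (∀ w : HeightOneSpectrum (𝓞 F), low (K := K) w = low (K := K) u →
        Ideal.absNorm w.asIdeal = Ideal.absNorm (low (K := K) u).asIdeal ^ f) ∧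
      ord (fun χ : (F ≃ₐ[K] F) →* ℂˣ => fn h χ) (gen (low (K := K) u)) = f ∧
      Nat.card {χ : (F ≃ₐ[K] F) →* ℂˣ // fn h χ (gen (low (K := K) u)) ≠ 0} * e =
        Nat.card (F ≃ₐ[K] F) := by
    intro u
    obtain ⟨e, f, g, he, hf, hg, hgc, h1, h2, h3, h4, h5⟩ := nums (K := K) (low (K := F) u)
    obtain ⟨φ, hφ, -⟩ := exists_frob (K := K) u
    obtain ⟨φ', hφ', hgen⟩ := exists_frob (K := K) (low (K := F) u)
    have hA : Nat.card {χ : (F ≃ₐ[K] F) →* ℂˣ // fn h χ (gen (low (K := K) u)) ≠ 0} * e =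
        Nat.card (F ≃ₐ[K] F) := by
      rw [← card_ann hcomm (ine (K := K) (low (K := F) u)), h1]
      congr 1
      exact Nat.card_congr (Equiv.subtypeEquivRight fun χ => ne_iff h hI hS u χ)
    refine ⟨e, f, g, he, hf, ?_, h3, ?_, ?_, hA⟩
    · rw [hgc, low_low]
    · intro w hw
      have := h4 w (by rw [low_low]; exact hw)
      rwa [low_low] at this
    · -- the number of the values
      let A0 : Subgroup ((F ≃ₐ[K] F) →* ℂˣ) :=
        { carrier := {χ | ∀ τ ∈ ine (K := K) (low (K := F) u), χ τ = 1}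
          one_mem' := fun τ _ => rfl
          mul_mem' := fun {a b} ha hb τ hτ => by
            show a τ * b τ = 1
            rw [ha τ hτ, hb τ hτ, mul_one]
          inv_mem' := fun {a} ha τ hτ => by
            show (a τ)⁻¹ = 1
            rw [ha τ hτ, inv_one] }
      let ev : A0 →* ℂˣ :=
        { toFun := fun χ => χ.1 (res K F M φ)
          map_one' := rfl
          map_mul' := fun a b => rfl }
      have hker : Nat.card ev.ker = Nat.card {χ : (F ≃ₐ[K] F) →* ℂˣ //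
          ∀ τ ∈ dec (K := K) (low (K := F) u), χ τ = 1} := by
        refine Nat.card_congr
          { toFun := fun χ => ⟨χ.1.1, fun τ hτ => ?_⟩
            invFun := fun χ => ⟨⟨χ.1, fun τ hτ => χ.2 τ (Ideal.inertia_le_stabilizer _ hτ)⟩,
              χ.2 _ (res_dec hφ.1)⟩
            left_inv := fun χ => rfl
            right_inv := fun χ => rfl }
        have k1 : χ.1.1 (res K F M φ) = 1 := χ.2
        have k2 : χ.1.1 φ' = 1 := by
          have k3 := χ.1.2 _ (frob_unique (res_frob hφ) hφ')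
          rwa [map_mul, map_inv, k1, inv_one, one_mul] at k3
        obtain ⟨j, hj⟩ := hgen τ hτ
        have k4 := χ.1.2 _ hj
        rwa [map_mul, map_inv, map_pow, k2, one_pow, inv_one, one_mul] at k4
      have hD := card_ann hcomm (dec (K := K) (low (K := F) u))
      rw [← hker, h2] at hD
      have hI0 := card_ann hcomm (ine (K := K) (low (K := F) u))
      rw [h1] at hI0
      have hA0 : Nat.card A0 = Nat.card {χ : (F ≃ₐ[K] F) →* ℂˣ //
        ∀ τ ∈ ine (K := K) (low (K := F) u), χ τ = 1} := rfl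
      have hci := Subgroup.card_mul_index ev.ker
      rw [Subgroup.index_ker, hA0] at hci
      have hkp : 0 < Nat.card ev.ker := Nat.card_pos
      have hrange : Nat.card ev.range = f := by
        have h6 : Nat.card ev.ker * Nat.card ev.range * e = Nat.card ev.ker * (e * f) := by
          rw [hci, hI0, hD]
        have h7 : Nat.card ev.ker * e * Nat.card ev.range = Nat.card ev.ker * e * f := by
          rw [mul_right_comm, h6, mul_assoc]
        exact Nat.eq_of_mul_eq_mul_left (Nat.mul_pos hkp he) h7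
      rw [← hrange]
      unfold ord
      have hset : {z : ℂ | z ≠ 0 ∧ ∃ χ : (F ≃ₐ[K] F) →* ℂˣ, fn h χ (gen (low (K := K) u)) = z} =
          (fun z : ℂˣ => (z : ℂ)) '' (ev.range : Set ℂˣ) := by
        ext z
        constructor
        · rintro ⟨hz, χ, rfl⟩
          have h6 := (ne_iff h hI hS u χ).1 hz
          exact ⟨_, ⟨⟨χ, h6⟩, rfl⟩, (val_frob h u hφ χ h6).symm⟩
        · rintro ⟨_, ⟨χ, rfl⟩, rfl⟩
          refine ⟨(ev χ).ne_zero, χ.1, ?_⟩
          exact val_frob h u hφ χ.1 χ.2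
      have h8 : Nat.card {z : ℂ // z ≠ 0 ∧ ∃ χ : (F ≃ₐ[K] F) →* ℂˣ,
          fn h χ (gen (low (K := K) u)) = z} = Nat.card {z : ℂ | z ≠ 0 ∧
            ∃ χ : (F ≃ₐ[K] F) →* ℂˣ, fn h χ (gen (low (K := K) u)) = z} := rfl
      rw [h8, hset, Nat.card_image_of_injective Units.val_injective]
      rfl
  have hlow : ∀ (v : HeightOneSpectrum (𝓞 K)), ∃ u : HeightOneSpectrum (𝓞 M),
      low (K := K) u = v := by
    intro v
    exact exists_above v
  refine ⟨fun v w hw => ?_, fun v => ?_⟩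
  · obtain ⟨u, rfl⟩ := hlow v
    obtain ⟨e, f, g, -, -, -, -, h1, h2, -⟩ := key u
    rw [h2]
    exact h1 w (HeightOneSpectrum.ext hw)
  · obtain ⟨u, rfl⟩ := hlow v
    obtain ⟨e, f, g, he, hf, hg, h1, -, h2, h3⟩ := key u
    rw [h2]
    have h4 : Nat.card {w : HeightOneSpectrum (𝓞 F) //
        w.asIdeal.comap (algebraMap (𝓞 K) (𝓞 F)) = (low (K := K) u).asIdeal} = g := by
      rw [hg]
      exact Nat.card_congr (Equiv.subtypeEquivRight fun w =>
        ⟨fun h5 => HeightOneSpectrum.ext h5, fun h5 => congrArg HeightOneSpectrum.asIdeal h5⟩)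
    rw [h4]
    have h5 : g * f * e = Nat.card {χ : (F ≃ₐ[K] F) →* ℂˣ //
        fn h χ (gen (low (K := K) u)) ≠ 0} * e := by
      rw [h3, ← h1]
      ring
    exact Nat.eq_of_mul_eq_mul_right he h5

end Pool.Agent.U81.AT
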