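import Pool.Agent.U81.AT.Tow
import Pool.Agent.U81.AT.Law
import Pool.Agent.U81.AT.Emb

/-!
The finite extensions of `K` contained in the towers.
-/

set_option autoImplicit false

namespace Pool.Agent.U81.AT

open NumberField IsDedekindDomain Pointwise WithZero
open Pool.Agent.K4H55.BD (low mem_low Spl tau mul_tau tau_tau tau_int norm_eq tv mem_tv int_mem tv_ne
  mem_tv_nat eq_or_tv)
open Pool.Agent.K4H55.BI (IQ gen gen_span gen_dvd)
open Pool.Agent.K4H55.CX (CH CF Law ord exists_above)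
open Pool.Agent.U81.MQ (ine dec nums card_ann)

variable {K : Type} [Field K] [NumberField K]

/-- the elements fixed by one automorphism -/
def fixOne (s : AlgebraicClosure K →ₐ[K] AlgebraicClosure K) :
    IntermediateField K (AlgebraicClosure K) where
  carrier := {x | s x = x}
  mul_mem' := fun {x y} hx hy => by
    show s (x * y) = x * y
    rw [map_mul, hx, hy]
  one_mem' := map_one s
  add_mem' := fun {x y} hx hy => by
    show s (x + y) = x + y
    rw [map_add, hx, hy]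
  zero_mem' := map_zero s
  algebraMap_mem' := fun x => s.commutes x
  inv_mem' := fun x hx => by
    show s x⁻¹ = x⁻¹
    rw [map_inv₀, hx]

section
variable {S : Finset ℕ} {k : ℕ → ℕ} [NumberField (cm K S)]
  {ζ : ℕ → 𝓞 (cm K S)}

/-- automorphisms with power exponents fix the towers -/
lemma fix_tow (h : Cyc K S ζ) (s : cm K S ≃ₐ[K] cm K S)
    (hs : ∀ q (hq : q ∈ S), ∃ b : ZMod q, (cy h hq s : ZMod q) = b ^ 2 ^ k q)
    {x : AlgebraicClosure K} (hx : x ∈ tow K (S : Set ℕ) k) (hx' : x ∈ cm K S) :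
    s ⟨x, hx'⟩ = ⟨x, hx'⟩ := by
  have hn : Normal K (cm K S) := cm_normal
  set t : AlgebraicClosure K ≃ₐ[K] AlgebraicClosure K := s.liftNormal (AlgebraicClosure K) with ht
  have hts : ∀ z : cm K S, t (z : AlgebraicClosure K) = (s z : cm K S) := fun z =>
    s.liftNormal_commutes _ z
  have h1 : tow K (S : Set ℕ) k ≤ fixOne (t : AlgebraicClosure K →ₐ[K] AlgebraicClosure K) := by
    refine iSup_le fun q x hx => ?_
    refine hx t fun z hz => ?_
    have hq : (q : ℕ) ∈ S := q.2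
    have hqp := h.pr q hq
    have : NeZero (q : ℕ) := ⟨hqp.ne_zero⟩
    obtain ⟨b, hb⟩ := hs q hq
    refine ⟨b.val, ?_⟩
    obtain ⟨i, -, hi⟩ := (h.root q hq).eq_pow_of_pow_eq_one (ξ := (⟨z, root_mem hq hz⟩ : cm K S)) (by
      apply Subtype.ext
      exact hz)
    have h2 : s ⟨z, root_mem hq hz⟩ = (⟨z, root_mem hq hz⟩ : cm K S) ^ b.val ^ 2 ^ k q := by
      rw [← hi, map_pow, ← cy_spec h hq, ← pow_mul, ← pow_mul, mul_comm i, pow_mul,
        pow_mul]
      congr 1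
      have h3 : (((cy h hq s : ZMod q).val : ℕ) : ZMod q) = ((b.val ^ 2 ^ k q : ℕ) : ZMod q) := by
        rw [ZMod.natCast_zmod_val, Nat.cast_pow, ZMod.natCast_zmod_val, hb]
      rw [ZMod.natCast_eq_natCast_iff] at h3
      have h4 : ∀ n : ℕ, (ζ q : cm K S) ^ (n % (q : ℕ)) = (ζ q : cm K S) ^ n := by
        intro n
        conv_rhs => rw [← Nat.mod_add_div n (q : ℕ), pow_add, pow_mul, (h.root q hq).pow_eq_one,
          one_pow, mul_one]
      rw [← h4 (cy h hq s : ZMod q).val, h3, h4]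
    have h3 := hts ⟨z, root_mem hq hz⟩
    rw [h2] at h3
    exact h3
  apply Subtype.ext
  have h2 : t x = x := h1 hx
  have h3 := hts ⟨x, hx'⟩
  rw [← h3]
  exact h2

end

section main

variable [IsPrincipalIdealRing (𝓞 K)] {σ : K →+* ℂ} {δ : K}

/-- the conditions on the primes -/
structure Cnd (h : IQ K σ δ) (D : 𝓞 K) (S : Finset ℕ) (k : ℕ → ℕ) : Prop where
  spl : ∀ q ∈ S, Spl h q
  un : ∀ q ∈ S, ∀ v : HeightOneSpectrum (𝓞 K), (q : 𝓞 K) ∈ v.asIdeal →
    v.valuation K (q : K) = exp (-1 : ℤ)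
  bad : ∀ q ∈ S, ∀ v : HeightOneSpectrum (𝓞 K), D ∈ v.asIdeal →
    (q : 𝓞 K) ∉ v.asIdeal ∧ ∃ b : ZMod q, b ^ 2 ^ k q = (Ideal.absNorm v.asIdeal : ℕ)

variable {D : 𝓞 K} {S : Finset ℕ} {k : ℕ → ℕ}

/-- **The finite extensions in the towers.** -/
theorem layer (hI : IQ K σ δ) (hc : Cnd hI D S k) (F : IntermediateField K (AlgebraicClosure K))
    [NumberField F] (hF : F ≤ tow K (S : Set ℕ) k) :
    IsGalois K F ∧ (∀ a b : F ≃ₐ[K] F, a * b = b * a) ∧ (∃ j, Module.finrank K F = 2 ^ j) ∧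
    (∀ v : HeightOneSpectrum (𝓞 K), D ∈ v.asIdeal → Nonempty (F →ₐ[K] v.adicCompletion K)) ∧
    (∀ u : HeightOneSpectrum (𝓞 F), (∀ q ∈ S, (q : 𝓞 K) ∉ (low (K := K) u).asIdeal) →
      ∀ x : K, u.valuation F (algebraMap K F x) = (low (K := K) u).valuation K x) ∧
    ∃ (𝒢 : Type) (_ : CommGroup 𝒢) (_ : Finite 𝒢)
      (T : 𝒢 → Finset (HeightOneSpectrum (𝓞 K))) (χ : 𝒢 → 𝓞 K → ℂ), CF T χ ∧ Law F χ ∧
      (∀ g, ∀ v ∈ T g, ∃ q ∈ S, (q : 𝓞 K) ∈ v.asIdeal) ∧ Module.finrank K F = Nat.card 𝒢 := by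
  classical
  have hS : ∀ q ∈ S, q.Prime := fun q hq => (hc.spl q hq).pr
  have hFM : F ≤ cm K S := hF.trans (tow_le S k)
  have hfd : FiniteDimensional K (cm K S) := cm_fd hS
  have hnf : NumberField (cm K S) := nf_of _
  have hgM : IsGalois K (cm K S) := cm_gal
  have hgF : IsGalois K F := gal_sub F hS hFM
  let _ : Algebra F (cm K S) := (IntermediateField.inclusion hFM).toRingHom.toAlgebra
  have htow : IsScalarTower K F (cm K S) := IsScalarTower.of_algebraMap_eq fun x => rfl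
  obtain ⟨ζ, hζ⟩ := exists_cyc (K := K) hS
  have hd : Dat K S ζ := ⟨hζ, hc.un⟩
  -- trivial restrictions
  have htriv : ∀ s : cm K S ≃ₐ[K] cm K S,
      (∀ q (hq : q ∈ S), ∃ b : ZMod q, (cy hζ hq s : ZMod q) = b ^ 2 ^ k q) →
      res K F (cm K S) s = 1 := by
    intro s hs
    apply AlgEquiv.ext
    intro x
    apply (algebraMap F (cm K S)).injective
    rw [res_spec]
    exact fix_tow hζ s hs (hF x.2) (hFM x.2)
  have hcomm : ∀ a b : F ≃ₐ[K] F, a * b = b * a := by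
    intro a b
    obtain ⟨s, rfl⟩ := res_surj (K := K) (F := F) (M := cm K S) a
    obtain ⟨t, rfl⟩ := res_surj (K := K) (F := F) (M := cm K S) b
    rw [← map_mul, ← map_mul, hζ.comm]
  have hexp : ∀ τ : F ≃ₐ[K] F, τ ^ 2 ^ (S.sup k) = 1 := by
    intro τ
    obtain ⟨s, rfl⟩ := res_surj (K := K) (F := F) (M := cm K S) τ
    rw [← map_pow]
    refine htriv _ fun q hq => ?_
    obtain ⟨m, hm⟩ : 2 ^ k q ∣ 2 ^ (S.sup k) := pow_dvd_pow 2 (Finset.le_sup hq)
    refine ⟨((cy hζ hq s ^ m : (ZMod q)ˣ) : ZMod q), ?_⟩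
    rw [map_pow, hm, mul_comm, pow_mul, Units.val_pow_eq_pow_val]
  refine ⟨hgF, hcomm, ?_, fun v hv => ?_, fun u hu x => ?_, ?_⟩
  · have h2 : Fact (Nat.Prime 2) := ⟨Nat.prime_two⟩
    have h1 : IsPGroup 2 (F ≃ₐ[K] F) := fun τ => ⟨_, hexp τ⟩
    obtain ⟨j, hj⟩ := IsPGroup.iff_card.1 h1
    refine ⟨j, ?_⟩
    rw [← hj, IsGalois.card_aut_eq_finrank]
  · -- the places above the discriminant split
    obtain ⟨u, rfl⟩ : ∃ u : HeightOneSpectrum (𝓞 (cm K S)), low (K := K) u = v := exists_above v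
    have hnot : ∀ q ∈ S, (q : 𝓞 (cm K S)) ∉ u.asIdeal := fun q hq hh =>
      (hc.bad q hq _ hv).1 (low_nat.2 hh)
    obtain ⟨φ, hφ, -⟩ := exists_frob (K := K) u
    obtain ⟨φ', hφ', hgen⟩ := exists_frob (K := K) (low (K := F) u)
    have hine : ∀ τ ∈ ine (K := K) (low (K := F) u), τ = 1 := by
      intro τ hτ
      obtain ⟨s, hs, rfl⟩ := ine_lift u hτ
      refine htriv s fun q hq => ⟨1, ?_⟩
      rw [cy_ine hζ u hq (hnot q hq) hs, one_pow, Units.val_one]
    have hφ1 : res K F (cm K S) φ = 1 := by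
      refine htriv φ fun q hq => ?_
      obtain ⟨b, hb⟩ := (hc.bad q hq _ hv).2
      exact ⟨b, by rw [hb]; exact cy_frob hζ u hq (hnot q hq) (hφ.2 (ζ q))⟩
    have hφ2 : φ' = 1 := by
      have := hine _ (frob_unique (res_frob hφ) hφ')
      rwa [hφ1, inv_one, one_mul] at this
    have hdec : ∀ τ ∈ dec (K := K) (low (K := F) u), τ = 1 := by
      intro τ hτ
      obtain ⟨j, hj⟩ := hgen τ hτ
      have := hine _ hj
      rwa [hφ2, one_pow, inv_one, one_mul] at this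
    have := exists_emb (low (K := F) u) hdec
    rwa [low_low] at this
  · obtain ⟨w, rfl⟩ : ∃ w : HeightOneSpectrum (𝓞 (cm K S)), low (K := F) w = u := exists_above u
    rw [low_low] at hu
    obtain ⟨e, f, g, he, -, -, -, h5, -, -, -, h8⟩ := nums (K := K) (low (K := F) w)
    have hine : ∀ τ ∈ ine (K := K) (low (K := F) w), τ = 1 := by
      intro τ hτ
      obtain ⟨s, hs, rfl⟩ := ine_lift w hτ
      refine htriv s fun q hq => ⟨1, ?_⟩
      rw [cy_ine hζ w hq (fun hh => hu q hq (low_nat.2 hh)) hs, one_pow, Units.val_one]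
    have he1 : e = 1 := by
      rw [← h5]
      have : ine (K := K) (low (K := F) w) = ⊥ := (Subgroup.eq_bot_iff_forall _).2 hine
      rw [this, Subgroup.card_bot]
    have := h8 x
    rw [he1, pow_one] at this
    exact this.symm
  · have hfin : Finite ((F ≃ₐ[K] F) →* ℂˣ) := inferInstance
    refine ⟨(F ≃ₐ[K] F) →* ℂˣ, inferInstance, hfin, fun χ => TT hd χ, fun χ => fn hd χ,
      cf_fn hd hI hc.spl hexp, law_fn hd hI hc.spl, fun χ v hv => ?_, ?_⟩
    · obtain ⟨q, -, hq⟩ := mem_TT.1 hv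
      exact ⟨q, q.2, hq⟩
    · have hall := card_ann hcomm (⊥ : Subgroup (F ≃ₐ[K] F))
      rw [Subgroup.card_bot, mul_one] at hall
      rw [← IsGalois.card_aut_eq_finrank, ← hall]
      exact Nat.card_congr (Equiv.subtypeUnivEquiv fun χ s hs => by
        rw [Subgroup.mem_bot] at hs
        rw [hs, map_one])

end main

end Pool.Agent.U81.AT
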