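import Pool.Agent.U81.AT.Fld

/-!
The Galois groups of the towers.
-/

set_option autoImplicit false

namespace Pool.Agent.U81.AT

open NumberField IsDedekindDomain Pointwise WithZero
open Pool.Agent.K4H55.BD (low mem_low)
open Pool.Agent.U81.MQ (ine dec nums)

/-- two quotients with the same kernel -/
lemma equiv_of_ker {G A B : Type*} [Group G] [Group A] [Group B] (f : G →* A) (g : G →* B)
    (hf : Function.Surjective f) (hg : Function.Surjective g) (h : f.ker = g.ker) :
    Nonempty (A ≃* B) :=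
  ⟨(QuotientGroup.quotientKerEquivOfSurjective f hf).symm.trans
    ((QuotientGroup.quotientMulEquivOfEq h).trans
      (QuotientGroup.quotientKerEquivOfSurjective g hg))⟩

/-- the quotient of a cyclic group -/
lemma exists_quot {G : Type} [CommGroup G] [Finite G] [hG : IsCyclic G] {m : ℕ} (hm : m ∣ Nat.card G) :
    ∃ d : G →* Multiplicative (ZMod m), Function.Surjective d ∧ ∀ x, d x = 1 ↔ ∃ y, y ^ m = x := by
  have hc : Nat.card G ≠ 0 := Nat.card_pos.ne'
  have hm0 : m ≠ 0 := by
    rintro rfl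
    exact hc (Nat.eq_zero_of_zero_dvd hm)
  have : NeZero (Nat.card G) := ⟨hc⟩
  have : NeZero m := ⟨hm0⟩
  let e := zmodCyclicMulEquiv hG
  let c : ZMod (Nat.card G) →+ ZMod m := (ZMod.castHom hm (ZMod m)).toAddMonoidHom
  let c' : Multiplicative (ZMod (Nat.card G)) →* Multiplicative (ZMod m) := AddMonoidHom.toMultiplicative c
  have hcs : Function.Surjective c := ZMod.castHom_surjective hm
  refine ⟨c'.comp e.symm.toMonoidHom, ?_, fun x => ?_⟩
  · intro z
    obtain ⟨y, hy⟩ := hcs (Multiplicative.toAdd z)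
    refine ⟨e (Multiplicative.ofAdd y), ?_⟩
    show c' (e.symm (e (Multiplicative.ofAdd y))) = z
    rw [MulEquiv.symm_apply_apply]
    show Multiplicative.ofAdd (c y) = z
    rw [hy]
    rfl
  · constructor
    · intro h1
      have h2 : c (Multiplicative.toAdd (e.symm x)) = 0 := h1
      set z : ZMod (Nat.card G) := Multiplicative.toAdd (e.symm x) with hz
      have h3 : ((z.val : ℕ) : ZMod m) = 0 := by
        have h4 : c z = ((z.val : ℕ) : ZMod m) := by
          show ZMod.castHom hm (ZMod m) z = _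
          conv_lhs => rw [← ZMod.natCast_zmod_val z]
          rw [map_natCast]
        rw [← h4, h2]
      obtain ⟨l, hl⟩ := (ZMod.natCast_eq_zero_iff _ _).1 h3
      refine ⟨e (Multiplicative.ofAdd (l : ZMod (Nat.card G))), ?_⟩
      rw [← map_pow]
      have h5 : (Multiplicative.ofAdd (l : ZMod (Nat.card G))) ^ m = e.symm x := by
        rw [← ofAdd_nsmul]
        have h6 : m • (l : ZMod (Nat.card G)) = z := by
          rw [nsmul_eq_mul, ← Nat.cast_mul, ← hl, ZMod.natCast_zmod_val]
        rw [h6, hz]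
        rfl
      rw [h5, MulEquiv.apply_symm_apply]
    · rintro ⟨y, rfl⟩
      have h1 : (c'.comp e.symm.toMonoidHom) (y ^ m) = ((c'.comp e.symm.toMonoidHom) y) ^ m :=
        map_pow _ _ _
      rw [h1]
      have h2 : m • Multiplicative.toAdd ((c'.comp e.symm.toMonoidHom) y) = 0 := by
        rw [nsmul_eq_mul, ZMod.natCast_self, zero_mul]
      exact h2

variable {K : Type} [Field K] [NumberField K]

section
variable {S : Finset ℕ} [NumberField (cm K S)] {ζ : ℕ → 𝓞 (cm K S)}

/-- the automorphisms which fix a layer -/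
theorem pow_of_fix (h : Cyc K S ζ) {q : ℕ} (hq : q ∈ S) {k : ℕ} (s : cm K S ≃ₐ[K] cm K S)
    (hs : ∀ x (hx : x ∈ lyr K q k), s ⟨x, lyr_le hq k hx⟩ = ⟨x, lyr_le hq k hx⟩) :
    ∃ b : (ZMod q)ˣ, b ^ 2 ^ k = cy h hq s := by
  have hfd : FiniteDimensional K (cm K S) := fd_of _
  have hn : Normal K (cm K S) := cm_normal
  let H : Subgroup (cm K S ≃ₐ[K] cm K S) := (powMonoidHom (2 ^ k)).range.comap (cy h hq)
  have hH : s ∈ H := by
    rw [← IntermediateField.fixingSubgroup_fixedField H, IntermediateField.mem_fixingSubgroup_iff]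
    intro x hx
    have h1 : (x : AlgebraicClosure K) ∈ lyr K q k := by
      intro σ hσ
      let s' : cm K S ≃ₐ[K] cm K S := σ.restrictNormal (cm K S)
      have hs' : ∀ z : cm K S, ((s' z : cm K S) : AlgebraicClosure K) = σ z :=
        fun z => AlgEquiv.restrictNormal_commutes σ (cm K S) z
      have h2 : s' ∈ H := by
        obtain ⟨m, hm⟩ := hσ ((ζ q : cm K S) : AlgebraicClosure K) (by
          have := (h.root q hq).pow_eq_one
          exact congrArg (fun z : cm K S => (z : AlgebraicClosure K)) this)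
        have h3 : s' • ζ q = ζ q ^ m ^ 2 ^ k := by
          apply RingOfIntegers.ext
          simp only [map_pow]
          apply Subtype.ext
          exact (hs' _).trans hm
        have h4 := cy_eq h hq h3
        rw [Nat.cast_pow] at h4
        have h5 : IsUnit (m : ZMod q) := by
          have h6 : IsUnit ((m : ZMod q) ^ 2 ^ k) := by
            rw [← h4]
            exact (cy h hq s').isUnit
          exact (isUnit_pow_iff (by positivity)).1 h6
        obtain ⟨b, hb⟩ := h5
        refine ⟨b, Units.ext ?_⟩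
        rw [h4, ← hb]
        rfl
      have h3 : s' x = x := by
        rw [IntermediateField.mem_fixedField_iff] at hx
        exact hx s' h2
      rw [← hs', h3]
    exact hs _ h1
  obtain ⟨b, hb⟩ := hH
  exact ⟨b, hb⟩

end

variable {S : Finset ℕ} {k : ℕ → ℕ}

lemma lyr_tow (k : ℕ → ℕ) {q : ℕ} (hq : q ∈ S) : lyr K q (k q) ≤ tow K (S : Set ℕ) k :=
  le_iSup (fun q : (S : Set ℕ) => lyr K q (k q)) ⟨q, hq⟩

/-- **The Galois groups of the finite towers.** -/
theorem tow_gal (hS : ∀ q ∈ S, q.Prime)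
    (hun : ∀ q ∈ S, ∀ v : HeightOneSpectrum (𝓞 K), (q : 𝓞 K) ∈ v.asIdeal →
      v.valuation K (q : K) = exp (-1 : ℤ)) (hk : ∀ q ∈ S, 2 ^ k q ∣ q - 1) :
    Nonempty ((tow K (S : Set ℕ) k ≃ₐ[K] tow K (S : Set ℕ) k) ≃*
      ((q : S) → Multiplicative (ZMod (2 ^ k q)))) := by
  classical
  set F := tow K (S : Set ℕ) k with hF
  have hFM : F ≤ cm K S := tow_le S k
  have hfd : FiniteDimensional K (cm K S) := cm_fd hS
  have hnf : NumberField (cm K S) := nf_of _
  have hfdF : FiniteDimensional K F :=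
    FiniteDimensional.of_injective (IntermediateField.inclusion hFM).toLinearMap
      (IntermediateField.inclusion hFM).injective
  have hnfF : NumberField F := nf_of _
  have hgM : IsGalois K (cm K S) := cm_gal
  have hgF : IsGalois K F := gal_sub F hS hFM
  let _ : Algebra F (cm K S) := (IntermediateField.inclusion hFM).toRingHom.toAlgebra
  have htow : IsScalarTower K F (cm K S) := IsScalarTower.of_algebraMap_eq fun x => rfl
  obtain ⟨ζ, hζ⟩ := exists_cyc (K := K) hS
  have hd : ∀ q : S, ∃ d : (ZMod (q : ℕ))ˣ →* Multiplicative (ZMod (2 ^ k q)),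
      Function.Surjective d ∧ ∀ x, d x = 1 ↔ ∃ y, y ^ 2 ^ k q = x := by
    intro q
    have : Fact (q : ℕ).Prime := ⟨hS q q.2⟩
    apply exists_quot
    rw [Nat.card_eq_fintype_card, ZMod.card_units_eq_totient, Nat.totient_prime (hS q q.2)]
    exact hk q q.2
  choose d hds hdk using hd
  let D : (cm K S ≃ₐ[K] cm K S) →* ((q : S) → Multiplicative (ZMod (2 ^ k q))) :=
    MonoidHom.pi fun q => (d q).comp (cy hζ q.2)
  have hD : Function.Surjective D := by
    intro z
    choose a ha using fun q : S => hds q (z q)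
    obtain ⟨s, hs⟩ := cy_surj hζ hun fun q => if hq : q ∈ S then a ⟨q, hq⟩ else 1
    refine ⟨s, funext fun q => ?_⟩
    show d q (cy hζ q.2 s) = z q
    rw [hs q q.2, dif_pos q.2, ← ha]
  refine equiv_of_ker (res K F (cm K S)) D res_surj hD ?_
  ext s
  rw [MonoidHom.mem_ker, MonoidHom.mem_ker]
  constructor
  · intro h1
    funext q
    show d q (cy hζ q.2 s) = 1
    rw [hdk]
    refine pow_of_fix hζ q.2 s fun x hx => ?_
    have h2 := res_spec (K := K) (F := F) s ⟨x, lyr_tow k q.2 hx⟩
    rw [h1] at h2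
    exact h2.symm
  · intro h1
    apply AlgEquiv.ext
    intro x
    apply (algebraMap F (cm K S)).injective
    rw [res_spec]
    refine fix_tow hζ s (fun q hq => ?_) x.2 (hFM x.2)
    have h2 : d ⟨q, hq⟩ (cy hζ hq s) = 1 := congrFun h1 ⟨q, hq⟩
    obtain ⟨y, hy⟩ := (hdk ⟨q, hq⟩ _).1 h2
    exact ⟨(y : ZMod q), by rw [← hy, Units.val_pow_eq_pow_val]⟩

end Pool.Agent.U81.AT
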