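import Pool.Agent.U81.AT.Cyc

/-!
The inertia groups of cyclotomic extensions; the Frobenius elements.
-/

set_option autoImplicit false

namespace Pool.Agent.U81.AT

open NumberField IsDedekindDomain Pointwise WithZero
open Pool.Agent.K4H55.BD (low mem_low)
open Pool.Agent.U81.MQ (ine dec nums)

section frob

variable {K F : Type} [Field K] [NumberField K] [Field F] [NumberField F] [Algebra K F]
  [IsGalois K F]

/-- the Frobenius elements -/
def Frob (K : Type) {F : Type} [Field K] [NumberField K] [Field F] [NumberField F] [Algebra K F]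
    (u : HeightOneSpectrum (𝓞 F)) (φ : F ≃ₐ[K] F) : Prop :=
  φ ∈ dec (K := K) u ∧
    ∀ x : 𝓞 F, φ • x - x ^ Ideal.absNorm (low (K := K) u).asIdeal ∈ u.asIdeal

theorem exists_frob (u : HeightOneSpectrum (𝓞 F)) : ∃ φ : F ≃ₐ[K] F, Frob K u φ ∧
    ∀ σ ∈ dec (K := K) u, ∃ j : ℕ, (φ ^ j)⁻¹ * σ ∈ ine (K := K) u := by
  classical
  set v := low (K := K) u with hv
  have hlo : u.asIdeal.LiesOver v.asIdeal := ⟨rfl⟩
  have hmv : v.asIdeal.IsMaximal := v.isPrime.isMaximal v.ne_bot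
  have hmu : u.asIdeal.IsMaximal := u.isPrime.isMaximal u.ne_bot
  let : Field (𝓞 K ⧸ v.asIdeal) := Ideal.Quotient.field v.asIdeal
  let : Field (𝓞 F ⧸ u.asIdeal) := Ideal.Quotient.field u.asIdeal
  have : Finite (𝓞 K ⧸ v.asIdeal) := Ideal.finiteQuotientOfFreeOfNeBot v.asIdeal v.ne_bot
  have : Finite (𝓞 F ⧸ u.asIdeal) := Ideal.finiteQuotientOfFreeOfNeBot u.asIdeal u.ne_bot
  let : Fintype (𝓞 K ⧸ v.asIdeal) := Fintype.ofFinite _
  let : Fintype (𝓞 F ⧸ u.asIdeal) := Fintype.ofFinite _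
  have hcv : Ideal.absNorm v.asIdeal = Fintype.card (𝓞 K ⧸ v.asIdeal) := by
    rw [Ideal.absNorm_apply, Submodule.cardQuot_apply, Nat.card_eq_fintype_card]
  set Φ := FiniteField.frobeniusAlgEquivOfAlgebraic (𝓞 K ⧸ v.asIdeal) (𝓞 F ⧸ u.asIdeal) with hΦ
  obtain ⟨s, hs⟩ := Ideal.Quotient.stabilizerHom_surjective (F ≃ₐ[K] F) v.asIdeal u.asIdeal Φ
  refine ⟨s.1, ⟨s.2, fun x => ?_⟩, fun σ hσ => ?_⟩
  · have h4 := Ideal.Quotient.stabilizerHom_apply u.asIdeal v.asIdeal (F ≃ₐ[K] F) s x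
    rw [hs] at h4
    have h5 : Φ (Ideal.Quotient.mk u.asIdeal x) = (Ideal.Quotient.mk u.asIdeal x) ^
        Fintype.card (𝓞 K ⧸ v.asIdeal) := rfl
    have h6 : Ideal.Quotient.mk u.asIdeal (s • x) =
        Ideal.Quotient.mk u.asIdeal (x ^ Ideal.absNorm v.asIdeal) := by
      rw [map_pow, hcv, ← h5]
      exact h4.symm
    exact Ideal.Quotient.eq.1 h6
  · obtain ⟨j, hj⟩ := (FiniteField.bijective_frobeniusAlgEquivOfAlgebraic_pow (𝓞 K ⧸ v.asIdeal)
      (𝓞 F ⧸ u.asIdeal)).2 (Ideal.Quotient.stabilizerHom u.asIdeal v.asIdeal (F ≃ₐ[K] F) ⟨σ, hσ⟩)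
    refine ⟨j.1, ?_⟩
    have h1 : (s ^ j.1)⁻¹ * ⟨σ, hσ⟩ ∈
        (Ideal.Quotient.stabilizerHom u.asIdeal v.asIdeal (F ≃ₐ[K] F)).ker := by
      rw [MonoidHom.mem_ker, map_mul, map_inv, map_pow, hs]
      rw [← hj]
      exact inv_mul_cancel _
    have h2 := Ideal.Quotient.map_ker_stabilizer_subtype (G := F ≃ₐ[K] F) u.asIdeal v.asIdeal
    have h3 := Subgroup.mem_map_of_mem (Subgroup.subtype _) h1
    rw [h2] at h3
    exact h3

end frob

variable {K M : Type} [Field K] [NumberField K] [Field M] [NumberField M] [Algebra K M]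
variable {S : Finset ℕ} {ζ : ℕ → 𝓞 M}

lemma int_root (h : Cyc K S ζ) {q : ℕ} (hq : q ∈ S) : IsPrimitiveRoot (ζ q) q :=
  (h.root q hq).of_map_of_injective (f := algebraMap (𝓞 M) M)
    (FaithfulSMul.algebraMap_injective (𝓞 M) M)

lemma one_sub_mem (h : Cyc K S ζ) (u : HeightOneSpectrum (𝓞 M)) {q : ℕ} (hq : q ∈ S)
    (hqu : (q : 𝓞 M) ∈ u.asIdeal) (k : ℕ) : 1 - ζ q ^ k ∈ u.asIdeal := by
  obtain ⟨m, rfl⟩ : ∃ m, q = m + 1 := ⟨q - 1, by have := (h.pr q hq).pos; omega⟩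
  have hζ := int_root h hq
  have h1 := hζ.prod_one_sub_pow_eq_order
  have h2 : ∏ k ∈ Finset.range m, (1 - ζ (m + 1) ^ (k + 1)) ∈ u.asIdeal := by
    rw [h1]
    exact_mod_cast hqu
  have hp := u.isPrime
  rw [Ideal.IsPrime.prod_mem_iff] at h2
  obtain ⟨j, hj, h3⟩ := h2
  rw [Finset.mem_range] at hj
  have h4 : (j + 1).Coprime (m + 1) := by
    rw [Nat.coprime_comm]
    exact (Nat.Prime.coprime_iff_not_dvd (h.pr _ hq)).2 fun h5 => by
      have := Nat.le_of_dvd (Nat.succ_pos j) h5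
      omega
  have h5 := hζ.pow_of_coprime (j + 1) h4
  obtain ⟨l, -, hl⟩ := h5.eq_pow_of_pow_eq_one (ξ := ζ (m + 1) ^ k) (by
    rw [← pow_mul, mul_comm, pow_mul, h.pw hq, one_pow])
  rw [← hl]
  refine u.asIdeal.mem_of_dvd ?_ h3
  have h6 := sub_dvd_pow_sub_pow (1 : 𝓞 M) (ζ (m + 1) ^ (j + 1)) l
  rwa [one_pow] at h6

lemma coprime_mem (h : Cyc K S ζ) (u : HeightOneSpectrum (𝓞 M)) {q q' : ℕ} (hq : q ∈ S)
    (hq' : q' ∈ S) (hne : q' ≠ q) (hqu : (q : 𝓞 M) ∈ u.asIdeal) : (q' : 𝓞 M) ∉ u.asIdeal := by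
  intro h1
  have h2 : q.Coprime q' := (Nat.coprime_primes (h.pr q hq) (h.pr q' hq')).2 (Ne.symm hne)
  obtain ⟨x, y, hxy⟩ := Nat.isCoprime_iff_coprime.2 h2
  apply u.isPrime.ne_top
  rw [Ideal.eq_top_iff_one]
  have h3 := congrArg (fun z : ℤ => (z : 𝓞 M)) hxy
  simp only [Int.cast_add, Int.cast_mul, Int.cast_natCast, Int.cast_one] at h3
  rw [← h3]
  exact u.asIdeal.add_mem (u.asIdeal.mul_mem_left _ hqu) (u.asIdeal.mul_mem_left _ h1)

/-- **The inertia group is large.** -/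
theorem ine_surj [IsGalois K M] (h : Cyc K S ζ) (u : HeightOneSpectrum (𝓞 M)) {q : ℕ} (hq : q ∈ S)
    (hqu : (q : 𝓞 M) ∈ u.asIdeal) (hv : (low (K := K) u).valuation K (q : K) = exp (-1 : ℤ))
    (a : (ZMod q)ˣ) : ∃ σ ∈ ine (K := K) u, cy h hq σ = a ∧
      ∀ q' (hq' : q' ∈ S), q' ≠ q → cy h hq' σ = 1 := by
  classical
  obtain ⟨e, f, g, he, hf, hg, -, h5, -, -, -, h8⟩ := nums (K := K) u
  have hq0 := (h.pr q hq).pos
  have : NeZero q := ⟨hq0.ne'⟩
  have h1 := h8 (q : K)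
  rw [hv, map_natCast] at h1
  have h2 : u.valuation M (q : M) ≤ exp (-((q - 1 : ℕ) : ℤ)) := by
    obtain ⟨m, hm⟩ : ∃ m, q = m + 1 := ⟨q - 1, by omega⟩
    have hζ := int_root h hq
    have h3 : ∏ k ∈ Finset.range m, (1 - ζ q ^ (k + 1)) = (q : 𝓞 M) := by
      have h4 : IsPrimitiveRoot (ζ q) (m + 1) := by rw [← hm]; exact hζ
      rw [h4.prod_one_sub_pow_eq_order, hm]
      push_cast
      ring
    have h4 : u.valuation M (q : M) = u.intValuation (q : 𝓞 M) := by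
      have := u.valuation_of_algebraMap (K := M) (q : 𝓞 M)
      have e : ((q : 𝓞 M) : M) = (q : M) := map_natCast (algebraMap (𝓞 M) M) q
      rw [← e]
      exact this
    rw [h4, ← h3, map_prod]
    have h5 : q - 1 = (Finset.range m).card := by rw [Finset.card_range, hm]; rfl
    have h6 : exp (-((q - 1 : ℕ) : ℤ)) = ∏ _k ∈ Finset.range m, exp (-1 : ℤ) := by
      rw [Finset.prod_const, ← exp_nsmul, h5]
      simp
    rw [h6]
    refine Finset.prod_le_prod' fun k _ => ?_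
    have h7 := (u.intValuation_le_pow_iff_mem (1 - ζ q ^ (k + 1)) 1).2 (by
      rw [pow_one]
      exact one_sub_mem h u hq hqu (k + 1))
    exact_mod_cast h7
  have h3 : q - 1 ≤ e := by
    rw [← h1, ← exp_nsmul, exp_le_exp] at h2
    simp only [smul_neg, nsmul_eq_mul, mul_one, neg_le_neg_iff] at h2
    exact_mod_cast h2
  let f : ine (K := K) u → (ZMod q)ˣ := fun σ => cy h hq σ.1
  have hinj : Function.Injective f := by
    intro σ τ hst
    apply Subtype.ext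
    refine cy_inj h fun q' hq' => ?_
    by_cases hne : q' = q
    · subst hne
      exact hst
    · have hn := coprime_mem h u hq hq' hne hqu
      rw [cy_ine h u hq' hn σ.2, cy_ine h u hq' hn τ.2]
  have hfin : Finite (ine (K := K) u) := inferInstance
  have hbij := hinj.bijective_of_nat_card_le (by
    rw [h5, Nat.card_eq_fintype_card, ZMod.card_units_eq_totient, Nat.totient_prime (h.pr q hq)]
    exact h3)
  obtain ⟨σ, hσ⟩ := hbij.2 a
  exact ⟨σ.1, σ.2, hσ, fun q' hq' hne => cy_ine h u hq' (coprime_mem h u hq hq' hne hqu) σ.2⟩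

lemma exists_over (q : ℕ) (hq : q.Prime) : ∃ u : HeightOneSpectrum (𝓞 M), (q : 𝓞 M) ∈ u.asIdeal := by
  have h1 : Ideal.span {(q : 𝓞 M)} ≠ ⊤ := by
    intro h2
    rw [Ideal.span_singleton_eq_top] at h2
    have h3 := h2.map (Algebra.norm ℤ)
    have h4 : Algebra.norm ℤ (q : 𝓞 M) = (q : ℤ) ^ Module.finrank ℤ (𝓞 M) := by
      have := Algebra.norm_algebraMap_of_basis (RingOfIntegers.basis M) (q : ℤ)
      rw [Module.finrank_eq_card_basis (RingOfIntegers.basis M)]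
      simpa using this
    rw [h4, isUnit_pow_iff (Module.finrank_pos).ne'] at h3
    have h5 := Int.isUnit_iff.1 h3
    have := hq.two_le
    omega
  obtain ⟨P, hP, hle⟩ := Ideal.exists_le_maximal _ h1
  have hmem : (q : 𝓞 M) ∈ P := hle (Ideal.mem_span_singleton_self _)
  refine ⟨⟨P, hP.isPrime, fun h0 => ?_⟩, hmem⟩
  rw [h0, Ideal.mem_bot] at hmem
  exact hq.ne_zero (by exact_mod_cast hmem)

lemma low_nat {u : HeightOneSpectrum (𝓞 M)} {q : ℕ} :
    (q : 𝓞 K) ∈ (low (K := K) u).asIdeal ↔ (q : 𝓞 M) ∈ u.asIdeal := by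
  rw [mem_low, map_natCast]

/-- **The Galois group.** -/
theorem cy_surj [IsGalois K M] (h : Cyc K S ζ)
    (hun : ∀ q ∈ S, ∀ v : HeightOneSpectrum (𝓞 K), (q : 𝓞 K) ∈ v.asIdeal →
      v.valuation K (q : K) = exp (-1 : ℤ))
    (a : (q : ℕ) → (ZMod q)ˣ) : ∃ σ : M ≃ₐ[K] M, ∀ q (hq : q ∈ S), cy h hq σ = a q := by
  classical
  have key : ∀ S' : Finset ℕ, S' ⊆ S → ∃ σ : M ≃ₐ[K] M, ∀ q (hq : q ∈ S),
      cy h hq σ = if q ∈ S' then a q else 1 := by
    intro S'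
    induction S' using Finset.induction_on with
    | empty =>
      intro _
      exact ⟨1, fun q hq => by rw [map_one]; simp⟩
    | insert p S' hp ih =>
      intro hsub
      obtain ⟨σ, hσ⟩ := ih ((Finset.subset_insert _ _).trans hsub)
      have hpS : p ∈ S := hsub (Finset.mem_insert_self _ _)
      obtain ⟨u, hu⟩ := exists_over (M := M) p (h.pr p hpS)
      obtain ⟨τ, -, h1, h2⟩ := ine_surj h u hpS hu (hun p hpS _ (low_nat.2 hu)) (a p)
      refine ⟨σ * τ, fun q hq => ?_⟩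
      rw [map_mul, hσ q hq]
      by_cases hqp : q = p
      · subst hqp
        rw [if_neg hp, one_mul, h1, if_pos (Finset.mem_insert_self _ _)]
      · rw [h2 q hq hqp, mul_one]
        by_cases hqS : q ∈ S'
        · rw [if_pos hqS, if_pos (Finset.mem_insert_of_mem hqS)]
        · rw [if_neg hqS, if_neg (by
            rw [Finset.mem_insert, not_or]
            exact ⟨hqp, hqS⟩)]
  obtain ⟨σ, hσ⟩ := key S (Finset.Subset.refl S)
  exact ⟨σ, fun q hq => by rw [hσ q hq, if_pos hq]⟩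

end Pool.Agent.U81.AT
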