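import Pool.Agent.U81.AT.Rea
import Pool.Agent.U81.AT.Den
import Pool.Agent.U81.BX.Eul
import Pool.Agent.U81.MQ.Top

/-!
The number fields in the towers.
-/

set_option autoImplicit false

namespace Pool.Agent.U81.AT

open NumberField IsDedekindDomain Filter Topology
open Pool.Agent.K4H55.BD (low mem_low Spl QE Cub pv crv val_q spl_sq)
open Pool.Agent.K4H55.BI (IQ BF Fser gen)
open Pool.Agent.K4H55.BK (Vals)
open Pool.Agent.K4H55.CX (CH CF Law ord fin_up ab_unit ne_of_unit SelG A_ne facF)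
open Pool.Agent.U81.BX (fct hasProd_fct)

variable {K : Type} [Field K] [NumberField K] [hP : IsPrincipalIdealRing (𝓞 K)] {σ : K →+* ℂ} {δ : K}
  {a b n : 𝓞 K} {c : Ideal (𝓞 K) → ℂ} {L : Type} [Field L] [NumberField L] [Algebra K L] {θ : L}

omit hP in
/-- the valuations of the admissible primes -/
lemma val_of (hI : IQ K σ δ) {q : ℕ} (hq : Spl hI q) (v : HeightOneSpectrum (𝓞 K))
    (hv : (q : 𝓞 K) ∈ v.asIdeal) : v.valuation K (q : K) = WithZero.exp (-1 : ℤ) := by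
  have := val_q (K := K) hv (spl_sq hI hq hv)
  simpa using this

/-- the conditions follow from those of the primes -/
lemma cnd_of (hI : IQ K σ δ) {S : Finset ℕ} {k : ℕ → ℕ} (hS : ∀ q ∈ S, q ∈ QE hI a b n)
    (hb : ∀ q ∈ S, ∀ v : HeightOneSpectrum (𝓞 K), 2 * (4 * a ^ 3 + 27 * b ^ 2) ∈ v.asIdeal →
      ∃ y : ZMod q, y ^ 2 ^ k q = (Ideal.absNorm v.asIdeal : ℕ)) :
    Cnd hI (2 * (4 * a ^ 3 + 27 * b ^ 2)) S k :=
  ⟨fun q hq => (hS q hq).1, fun q hq v hv => val_of hI (hS q hq).1 v hv,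
    fun q hq v hv => ⟨fun h1 => ((hS q hq).2 v h1).1 hv, hb q hq v hv⟩⟩

/-- algebraic integers whose absolute value is the root of an odd number -/
lemma cop_of {τ : integralClosure ℤ ℂ} {N : ℕ} (hN : Odd N) (h : ‖(τ : ℂ)‖ ^ 2 = N) :
    IsCoprime τ 2 := by
  have hτ : IsIntegral ℤ (starRingEnd ℂ (τ : ℂ)) := by
    have h1 : IsIntegral ℤ (τ : ℂ) := τ.2
    exact h1.map (starRingEnd ℂ).toIntAlgHom
  set τ' : integralClosure ℤ ℂ := ⟨starRingEnd ℂ (τ : ℂ), hτ⟩ with hτ'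
  have h1 : τ * τ' = (N : integralClosure ℤ ℂ) := by
    apply Subtype.ext
    have h2 : (τ : ℂ) * starRingEnd ℂ (τ : ℂ) = (N : ℂ) := by
      rw [Complex.mul_conj, Complex.normSq_eq_norm_sq, h]
      norm_num
    exact h2
  have h2 : IsCoprime (N : ℤ) 2 := by
    rw [show (2 : ℤ) = ((2 : ℕ) : ℤ) from rfl, Nat.isCoprime_iff_coprime]
    exact Nat.coprime_two_right.2 hN
  have h3 := h2.map (Int.castRingHom (integralClosure ℤ ℂ))
  have h4 : IsCoprime (τ * τ') (2 : integralClosure ℤ ℂ) := by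
    rw [h1]
    simpa using h3
  exact IsCoprime.of_mul_left_left h4

lemma cop_int {k : ℤ} (hk : Odd k) : IsCoprime (k : integralClosure ℤ ℂ) 2 := by
  obtain ⟨m, hm⟩ := hk
  exact ⟨1, -m, by rw [hm]; push_cast; ring⟩

/-- **The fields in the towers.** -/
theorem main (h : IQ K σ δ) (hΔ : 4 * a ^ 3 + 27 * b ^ 2 ≠ 0) (hf : BF σ δ n c)
    (hE : ∀ v : HeightOneSpectrum (𝓞 K), 2 * (4 * a ^ 3 + 27 * b ^ 2) ∉ v.asIdeal →
      n ∉ v.asIdeal ∧ c v.asIdeal = (Ideal.absNorm v.asIdeal : ℂ) - pv a b v)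
    {z : ℂ} (hz : Tendsto (fun t => Fser σ δ c 0 t) (𝓝[>] 0) (𝓝 z)) {ω : ℂ}
    (hω : ∀ l ∈ AddSubgroup.closure (Vals σ δ n c), ∃ j : ℤ, l = j * ω)
    (hω' : ω ∈ AddSubgroup.closure (Vals σ δ n c))
    (hodd : ∀ y ∈ AddSubgroup.closure (Vals σ δ n c),
      z ≠ 2 * (Nat.card {u : 𝓞 K // u ^ 4 = 1} : ℂ) * y)
    (hcub : Cub K θ) (hθ : θ ^ 3 + algebraMap K L a * θ + algebraMap K L b = 0) (hSel : SelG a b θ)
    {S : Set ℕ} {k : ℕ → ℕ} (hS : ∀ q ∈ S, q ∈ QE h a b n)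
    (hb : ∀ q ∈ S, ∀ v : HeightOneSpectrum (𝓞 K), 2 * (4 * a ^ 3 + 27 * b ^ 2) ∈ v.asIdeal →
      ∃ y : ZMod q, y ^ 2 ^ k q = (Ideal.absNorm v.asIdeal : ℕ))
    (F : IntermediateField K (AlgebraicClosure K)) [NumberField F] (hF : F ≤ tow K S k) :
    (IsGalois K F ∧ (∀ a b : F ≃ₐ[K] F, a * b = b * a) ∧ (∃ j, Module.finrank K F = 2 ^ j) ∧
      (∀ v : HeightOneSpectrum (𝓞 K), 2 * (4 * a ^ 3 + 27 * b ^ 2) ∈ v.asIdeal →
        Nonempty (F →ₐ[K] v.adicCompletion K)) ∧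
      (∀ u : HeightOneSpectrum (𝓞 F), (∀ q ∈ S, (q : 𝓞 K) ∉ (low (K := K) u).asIdeal) →
        ∀ x : K, u.valuation F (algebraMap K F x) = (low (K := K) u).valuation K x)) ∧
    ∃ (G : ℂ → ℂ) (x y : integralClosure ℤ ℂ), Differentiable ℂ G ∧
      (∀ s : ℂ, 2 < s.re → HasProd (fct (F := F) a b n c s) (G s)) ∧
      IsCoprime x 2 ∧ IsCoprime y 2 ∧
      y * G 1 = x * ((2 * Real.pi / ‖σ δ‖) ^ 2 / (Nat.card (𝓞 K)ˣ : ℂ) * z) ^
        Module.finrank K F ∧ G 1 ≠ 0 ∧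
      (Finite (crv (algebraMap K F a) (algebraMap K F b)).toAffine.Point ∧
        Odd (Nat.card (crv (algebraMap K F a) (algebraMap K F b)).toAffine.Point)) ∧
      (∀ (k : ℕ) (s : Pool.Agent.TH841.NF.D.Sha (crv (algebraMap K F a) (algebraMap K F b))),
        (2 ^ k : ℕ) • s = 0 → s = 0) ∧
      ∀ x : Pool.Agent.Y667.BKP.H1f 2 (crv (algebraMap K F a) (algebraMap K F b)), x = 0 := by
  classical
  have hfdF : FiniteDimensional K F := FiniteDimensional.right ℚ K F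
  obtain ⟨S', hS', hF'⟩ := exists_finset F hF
  have hcnd := cnd_of (a := a) (b := b) (n := n) (S := S') (k := k) h (fun q hq => hS q (hS' hq))
    (fun q hq => hb q (hS' hq))
  obtain ⟨l1, l2, ⟨j, hj⟩, l4, l5, 𝒢, _, _, T, χ, hcf, hlaw, hT, hdeg⟩ := layer h hcnd F hF'
  have hadm : ∀ v : HeightOneSpectrum (𝓞 K), (∃ q ∈ S', (q : 𝓞 K) ∈ v.asIdeal) →
      (2 : 𝓞 K) ∉ v.asIdeal ∧ n ∉ v.asIdeal ∧ ∃ m : ℤ, c v.asIdeal = m ∧ m % 2 = 1 := by
    rintro v ⟨q, hq, hqv⟩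
    obtain ⟨h1, h2, h3⟩ := (hS q (hS' hq)).2 v hqv
    have h4 : (2 : 𝓞 K) ∉ v.asIdeal := fun h2 => h1 (v.asIdeal.mul_mem_right _ h2)
    refine ⟨h4, h2, (Ideal.absNorm v.asIdeal : ℤ) - pv a b v, ?_, ?_⟩
    · rw [(hE v h1).2]
      push_cast
      ring
    · obtain ⟨k, hk⟩ := K4H55.BD.pv_even (a := a) (b := b) h4 h3
      have h6 := K4H55.BM.norm_odd h4
      rw [Nat.odd_iff] at h6
      omega
  obtain ⟨G, τ, x, m, g1, g2, g3, g4, g5, g6⟩ := ab_unit h hf hcf hlaw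
    (fun g v hv => hadm v (hT g v hv)) hz hω hω' hodd
  have hz0 : z ≠ 0 := by
    have := hodd 0 (AddSubgroup.zero_mem _)
    rwa [mul_zero] at this
  have hG1 : G 1 ≠ 0 := ne_of_unit g5 (mul_ne_zero (A_ne h) hz0) g6
  refine ⟨⟨l1, l2, ⟨j, hj⟩, l4, fun u hu => l5 u fun q hq => hu q (hS' hq)⟩, G, x, m * τ, g1,
    fun s hs => ?_, g5, ?_, ?_, hG1, ?_⟩
  · refine hasProd_fct hΔ hE (fun u => ⟨_, hlaw.norm (low (K := K) u) u rfl⟩)
      (fun v => ?_) (by linarith) (g2 s hs)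
    have h6 := hlaw.card v
    have hpos : 0 < Nat.card {g // χ g (gen v) ≠ 0} := by
      have : Nonempty {g // χ g (gen v) ≠ 0} := ⟨⟨1, by
        rw [hcf.triv]
        exact one_ne_zero⟩⟩
      exact Nat.card_pos
    have h7 : Nat.card {u : HeightOneSpectrum (𝓞 F) //
        u.asIdeal.comap (algebraMap (𝓞 K) (𝓞 F)) = v.asIdeal} ≠ 0 := by
      intro h0
      rw [h0, zero_mul] at h6
      omega
    exact Nat.finite_of_card_ne_zero h7
  · refine IsCoprime.mul_left (cop_int g3) ?_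
    have : Fintype 𝒢 := Fintype.ofFinite _
    refine cop_of (N := ∏ g, ∏ v ∈ T g, Ideal.absNorm v.asIdeal) ?_ ?_
    · refine Finset.prod_induction _ Odd (fun a b ha hb => ha.mul hb) odd_one fun g _ => ?_
      refine Finset.prod_induction _ Odd (fun a b ha hb => ha.mul hb) odd_one fun v hv => ?_
      exact K4H55.BM.norm_odd (hadm v (hT g v hv)).1
    · rw [g4, finprod_eq_prod_of_fintype]
      push_cast
      rfl
  · rw [hdeg]
    push_cast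
    exact g6
  · have hG := l1
    refine fin_up (F := F) hΔ hcub hθ hSel hj l4 (fun u hu => ?_)
    by_cases h3 : ∃ q ∈ S', (q : 𝓞 K) ∈ (low (K := K) u).asIdeal
    · obtain ⟨q, hq, hqv⟩ := h3
      exact Or.inl ((hS q (hS' hq)).2 _ hqv).2.2
    · push Not at h3
      exact Or.inr (l5 u h3)

end Pool.Agent.U81.AT
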