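import Pool.Agent.U81.AT.Grp

/-!
All the finite abelian `2`-groups are Galois groups of layers of the towers.
-/

set_option autoImplicit false

namespace Pool.Agent.U81.AT

open NumberField IsDedekindDomain Pointwise WithZero
open Pool.Agent.K4H55.BD (low mem_low)
open Pool.Agent.U81.MQ (ine dec nums)

variable {K : Type} [Field K] [NumberField K]

lemma lyr_mono {q k k' : ℕ} (h : k ≤ k') : lyr K q k ≤ lyr K q k' := by
  intro x hx σ hσ
  refine hx σ fun z hz => ?_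
  obtain ⟨m, hm⟩ := hσ z hz
  obtain ⟨j, rfl⟩ := Nat.exists_eq_add_of_le h
  refine ⟨m ^ 2 ^ j, ?_⟩
  rw [hm, ← pow_mul, ← pow_add, add_comm j k]

lemma tow_mono {S S' : Set ℕ} {k k' : ℕ → ℕ} (h : S ⊆ S') (hk : ∀ q ∈ S, k q ≤ k' q) :
    tow K S k ≤ tow K S' k' := by
  refine iSup_le fun q => (lyr_mono (hk q q.2)).trans ?_
  exact le_iSup (fun q : S' => lyr K q (k' q)) ⟨q.1, h q.2⟩

/-- a layer is not in the towers of the other primes -/
theorem lyr_not_le {S : Finset ℕ} (k : ℕ → ℕ) {q : ℕ} (hqS : q ∉ S)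
    (hS : ∀ p ∈ insert q S, p.Prime)
    (hun : ∀ p ∈ insert q S, ∀ v : HeightOneSpectrum (𝓞 K), (p : 𝓞 K) ∈ v.asIdeal →
      v.valuation K (p : K) = exp (-1 : ℤ)) {e : ℕ} (he : 0 < e) (hqe : 2 ^ e ∣ q - 1) :
    ¬ lyr K q e ≤ tow K (S : Set ℕ) k := by
  classical
  intro hle
  set S1 : Finset ℕ := insert q S with hS1
  have hqS1 : q ∈ S1 := Finset.mem_insert_self _ _
  have hfd : FiniteDimensional K (cm K S1) := cm_fd hS
  have hnf : NumberField (cm K S1) := nf_of _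
  have hgM : IsGalois K (cm K S1) := cm_gal
  obtain ⟨ζ, hζ⟩ := exists_cyc (K := K) hS
  have : Fact q.Prime := ⟨hS q hqS1⟩
  have h2 : 2 ∣ Nat.card (ZMod q)ˣ := by
    rw [Nat.card_eq_fintype_card, ZMod.card_units_eq_totient, Nat.totient_prime (hS q hqS1)]
    exact (dvd_pow_self 2 he.ne').trans hqe
  obtain ⟨d, hds, hdk⟩ := exists_quot h2
  obtain ⟨a, ha⟩ := hds (Multiplicative.ofAdd 1)
  have hk' : tow K (S : Set ℕ) k ≤ tow K (S1 : Set ℕ) (Function.update k q 0) := by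
    refine tow_mono (Finset.coe_subset.2 (Finset.subset_insert _ _)) fun p hp => ?_
    have hpq : p ≠ q := by
      rintro rfl
      exact hqS hp
    rw [Function.update_of_ne hpq]
  obtain ⟨s, hs⟩ := cy_surj hζ hun fun p => if hp : p = q then hp ▸ a else 1
  have hsq : cy hζ hqS1 s = a := by
    rw [hs q hqS1, dif_pos rfl]
  obtain ⟨b, hb⟩ := pow_of_fix hζ hqS1 (k := e) s fun x hx => by
    refine fix_tow hζ s (fun p hp => ?_) (hk' (hle hx)) _
    by_cases hpq : p = q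
    · subst hpq
      rw [Function.update_self]
      exact ⟨(cy hζ hp s : ZMod p), by rw [pow_zero, pow_one]⟩
    · refine ⟨1, ?_⟩
      rw [hs p hp, dif_neg hpq, one_pow, Units.val_one]
  have h3 : d a = 1 := by
    rw [hdk]
    obtain ⟨j, rfl⟩ : ∃ j, e = j + 1 := ⟨e - 1, by omega⟩
    refine ⟨b ^ 2 ^ j, ?_⟩
    rw [← pow_mul, ← pow_succ, hb, hsq]
  rw [ha] at h3
  have h4 : (1 : ZMod 2) = 0 := h3
  exact absurd h4 (by decide)

lemma pow_of_card {A : Type} [CommGroup A] [Finite A] {N : ℕ} (hA : Nat.card A = 2 ^ N) :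
    ∃ (ι : Type) (_ : Fintype ι) (e : ι → ℕ), (∀ i, 0 < e i) ∧
      Nonempty (A ≃* ((i : ι) → Multiplicative (ZMod (2 ^ e i)))) := by
  obtain ⟨ι, hι, n, hn, ⟨φ⟩⟩ := CommGroup.equiv_prod_multiplicative_zmod_of_finite A
  have h1 : ∏ i, n i = 2 ^ N := by
    rw [← hA, Nat.card_congr φ.toEquiv, Nat.card_pi]
    refine Finset.prod_congr rfl fun i _ => ?_
    have : Nat.card (Multiplicative (ZMod (n i))) = Nat.card (ZMod (n i)) := rfl
    rw [this, Nat.card_zmod]
  have h2 : ∀ i, ∃ e, 0 < e ∧ n i = 2 ^ e := by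
    intro i
    have h3 : n i ∣ 2 ^ N := by
      rw [← h1]
      exact Finset.dvd_prod_of_mem n (Finset.mem_univ i)
    obtain ⟨e, -, he⟩ := (Nat.dvd_prime_pow Nat.prime_two).1 h3
    refine ⟨e, Nat.pos_of_ne_zero fun h0 => ?_, he⟩
    have := hn i
    rw [he, h0] at this
    omega
  choose e he hne using h2
  refine ⟨ι, hι, e, he, ⟨φ.trans (MulEquiv.piCongrRight fun i => ?_)⟩⟩
  exact AddEquiv.toMultiplicative (ZMod.ringEquivCongr (hne i)).toAddEquiv

/-- **Every finite abelian `2`-group.** -/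
theorem realize {S : Set ℕ} {k : ℕ → ℕ} (hS : ∀ q ∈ S, q.Prime)
    (hun : ∀ q ∈ S, ∀ v : HeightOneSpectrum (𝓞 K), (q : 𝓞 K) ∈ v.asIdeal →
      v.valuation K (q : K) = exp (-1 : ℤ)) (hk : ∀ q ∈ S, 2 ^ k q ∣ q - 1)
    (hinf : ∀ n, {q | q ∈ S ∧ n ≤ k q}.Infinite) {A : Type} [CommGroup A] [Finite A]
    [Nontrivial A] {N : ℕ} (hA : Nat.card A = 2 ^ N) :
    {F : IntermediateField K (AlgebraicClosure K) | F ≤ tow K S k ∧ NumberField F ∧
      Nonempty ((F ≃ₐ[K] F) ≃* A)}.Infinite := by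
  classical
  obtain ⟨ι, hι, e, he, ⟨φ⟩⟩ := pow_of_card hA
  have hne : Nonempty ι := by
    by_contra h0
    rw [not_nonempty_iff] at h0
    obtain ⟨x, y, hxy⟩ := exists_pair_ne A
    exact hxy (φ.injective (Subsingleton.elim _ _))
  intro hfin
  -- the primes of the finitely many fields
  have hex : ∀ F : IntermediateField K (AlgebraicClosure K), ∃ S' : Finset ℕ,
      (F ≤ tow K S k ∧ NumberField F) → (S' : Set ℕ) ⊆ S ∧ F ≤ tow K (S' : Set ℕ) k := by
    intro F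
    by_cases hF : F ≤ tow K S k ∧ NumberField F
    · have := hF.2
      have := fd_of F
      obtain ⟨S', h1, h2⟩ := exists_finset F hF.1
      exact ⟨S', fun _ => ⟨h1, h2⟩⟩
    · exact ⟨∅, fun h => absurd h hF⟩
  choose sF hsF using hex
  set B : Finset ℕ := hfin.toFinset.biUnion sF with hB
  set E := Finset.univ.sup e with hE
  have hinf' : ({q | q ∈ S ∧ E ≤ k q} \ (B : Set ℕ)).Infinite := (hinf E).sdiff (Finset.finite_toSet B)
  let f : ι → ℕ := fun i => hinf'.natEmbedding _ (Fintype.equivFin ι i : ℕ)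
  have hf : Function.Injective f := by
    intro i j hij
    have h1 := (hinf'.natEmbedding _).injective (Subtype.ext hij)
    exact (Fintype.equivFin ι).injective (Fin.ext h1)
  have hfm : ∀ i, (f i ∈ S ∧ E ≤ k (f i)) ∧ f i ∉ B := fun i =>
    ⟨(hinf'.natEmbedding _ (Fintype.equivFin ι i : ℕ)).2.1,
      fun h => (hinf'.natEmbedding _ (Fintype.equivFin ι i : ℕ)).2.2 h⟩
  set S' : Finset ℕ := Finset.univ.image f with hS'
  set k' : ℕ → ℕ := Function.extend f e 0 with hk'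
  have hk'f : ∀ i, k' (f i) = e i := fun i => hf.extend_apply e 0 i
  have hmem : ∀ q ∈ S', ∃ i, f i = q := fun q hq => by simpa [hS'] using hq
  have hle : ∀ i, e i ≤ k (f i) := fun i =>
    (Finset.le_sup (Finset.mem_univ i)).trans (hfm i).1.2
  have hS'S : (S' : Set ℕ) ⊆ S := by
    intro q hq
    obtain ⟨i, rfl⟩ := hmem q hq
    exact (hfm i).1.1
  have hk1 : ∀ q ∈ S', k' q ≤ k q := by
    intro q hq
    obtain ⟨i, rfl⟩ := hmem q hq
    rw [hk'f]
    exact hle i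
  have hFT : tow K (S' : Set ℕ) k' ≤ tow K S k := tow_mono hS'S hk1
  have hS'p : ∀ q ∈ S', q.Prime := fun q hq => hS q (hS'S hq)
  have hfd : FiniteDimensional K (cm K S') := cm_fd hS'p
  have hfdF : FiniteDimensional K (tow K (S' : Set ℕ) k') :=
    FiniteDimensional.of_injective (IntermediateField.inclusion (tow_le S' k')).toLinearMap
      (IntermediateField.inclusion (tow_le S' k')).injective
  have hnfF : NumberField (tow K (S' : Set ℕ) k') := nf_of _
  obtain ⟨ψ⟩ := tow_gal (K := K) (S := S') (k := k') hS'p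
    (fun q hq => hun q (hS'S hq)) (fun q hq => (pow_dvd_pow 2 (hk1 q hq)).trans (hk q (hS'S hq)))
  let r : ι ≃ S' := Equiv.ofBijective (fun i => ⟨f i, by simp [hS']⟩)
    ⟨fun i j hij => by
      have h0 := congrArg (fun x : S' => (x : ℕ)) hij
      exact hf h0, fun q => by
      obtain ⟨i, hi⟩ := hmem q q.2
      exact ⟨i, Subtype.ext hi⟩⟩
  have hr : ∀ i, k' (r i : ℕ) = e i := hk'f
  let θ : ((q : S') → Multiplicative (ZMod (2 ^ k' q))) ≃*
      ((i : ι) → Multiplicative (ZMod (2 ^ e i))) :=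
    (MulEquiv.mk' (Equiv.piCongrLeft (fun q : S' => Multiplicative (ZMod (2 ^ k' q))) r).symm
      (fun _ _ => rfl)).trans
      (MulEquiv.piCongrRight fun i => AddEquiv.toMultiplicative
        (ZMod.ringEquivCongr (by rw [hr i])).toAddEquiv)
  have hX : tow K (S' : Set ℕ) k' ∈ {F : IntermediateField K (AlgebraicClosure K) |
      F ≤ tow K S k ∧ NumberField F ∧ Nonempty ((F ≃ₐ[K] F) ≃* A)} :=
    ⟨hFT, hnfF, ⟨(ψ.trans θ).trans φ.symm⟩⟩
  obtain ⟨h1, h2⟩ := hsF _ ⟨hFT, hnfF⟩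
  obtain ⟨i0⟩ := hne
  have hi0 : f i0 ∈ S' := by simp [hS']
  have h3 : f i0 ∉ sF (tow K (S' : Set ℕ) k') := fun h4 => (hfm i0).2 (by
    rw [hB, Finset.mem_biUnion]
    exact ⟨_, hfin.mem_toFinset.2 hX, h4⟩)
  refine lyr_not_le (K := K) k h3 (fun p hp => ?_) (fun p hp => ?_) (he i0)
    ((pow_dvd_pow 2 (hle i0)).trans (hk _ (hfm i0).1.1)) ?_
  · rcases Finset.mem_insert.1 hp with rfl | h4
    · exact hS _ (hfm i0).1.1
    · exact hS _ (h1 h4)
  · rcases Finset.mem_insert.1 hp with rfl | h4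
    · exact hun _ (hfm i0).1.1
    · exact hun _ (h1 h4)
  · have h4 := lyr_tow (K := K) k' hi0
    rw [hk'f] at h4
    exact h4.trans h2

end Pool.Agent.U81.AT
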