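import Pool.Agent.U81.AT.Ine

/-!
Restriction of the inertia groups and of the Frobenius elements.
-/

set_option autoImplicit false

namespace Pool.Agent.U81.AT

open NumberField IsDedekindDomain Pointwise WithZero
open Pool.Agent.K4H55.BD (low mem_low)
open Pool.Agent.U81.MQ (ine dec nums)

section uniq

variable {K F : Type} [Field K] [NumberField K] [Field F] [NumberField F] [Algebra K F]

lemma frob_unique {u : HeightOneSpectrum (𝓞 F)} {φ ψ : F ≃ₐ[K] F} (hφ : Frob K u φ)
    (hψ : Frob K u ψ) : φ⁻¹ * ψ ∈ ine (K := K) u := by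
  have h1 : φ • u.asIdeal = u.asIdeal := hφ.1
  have h2 : φ⁻¹ • u.asIdeal = u.asIdeal := by rw [inv_smul_eq_iff, h1]
  intro y
  have h3 : φ • y - ψ • y ∈ u.asIdeal := by
    have := u.asIdeal.sub_mem (hφ.2 y) (hψ.2 y)
    convert this using 1
    ring
  have h4 := Ideal.smul_mem_pointwise_smul φ⁻¹ _ _ h3
  rw [h2, smul_sub, inv_smul_smul] at h4
  have h5 := u.asIdeal.neg_mem h4
  rw [neg_sub, ← mul_smul] at h5
  exact h5

end uniq

variable {K F M : Type} [Field K] [NumberField K] [Field F] [NumberField F] [Field M]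
  [NumberField M] [Algebra K F] [Algebra F M] [Algebra K M] [IsScalarTower K F M]

lemma low_low (u : HeightOneSpectrum (𝓞 M)) :
    low (K := K) (low (K := F) u) = low (K := K) u := by
  apply HeightOneSpectrum.ext
  ext x
  rw [mem_low, mem_low, mem_low]
  have : algebraMap (𝓞 F) (𝓞 M) (algebraMap (𝓞 K) (𝓞 F) x) = algebraMap (𝓞 K) (𝓞 M) x := by
    apply RingOfIntegers.ext
    exact (IsScalarTower.algebraMap_apply K F M (x : K)).symm
  rw [this]

variable [IsGalois K F] [IsGalois K M]

/-- the restriction -/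
noncomputable abbrev res (K F M : Type) [Field K] [NumberField K] [Field F] [NumberField F] [Field M]
    [NumberField M] [Algebra K F] [Algebra F M] [Algebra K M] [IsScalarTower K F M] [IsGalois K F]
    [IsGalois K M] : (M ≃ₐ[K] M) →* (F ≃ₐ[K] F) :=
  AlgEquiv.restrictNormalHom F

lemma res_spec (σ : M ≃ₐ[K] M) (x : F) : algebraMap F M (res K F M σ x) = σ (algebraMap F M x) :=
  AlgEquiv.restrictNormal_commutes σ F x

lemma res_smul (σ : M ≃ₐ[K] M) (x : 𝓞 F) : algebraMap (𝓞 F) (𝓞 M) (res K F M σ • x) =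
    σ • algebraMap (𝓞 F) (𝓞 M) x := by
  apply RingOfIntegers.ext
  exact res_spec σ (x : F)

lemma res_surj : Function.Surjective (res K F M) :=
  AlgEquiv.restrictNormalHom_surjective M

lemma res_ine {u : HeightOneSpectrum (𝓞 M)} {σ : M ≃ₐ[K] M} (hσ : σ ∈ ine (K := K) u) :
    res K F M σ ∈ ine (K := K) (low (K := F) u) := by
  intro y
  show _ ∈ (low (K := F) u).asIdeal
  rw [mem_low, map_sub, res_smul]
  exact hσ _

lemma res_dec {u : HeightOneSpectrum (𝓞 M)} {σ : M ≃ₐ[K] M} (hσ : σ ∈ dec (K := K) u) :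
    res K F M σ ∈ dec (K := K) (low (K := F) u) := by
  have h1 : σ • u.asIdeal = u.asIdeal := hσ
  show res K F M σ • (low (K := F) u).asIdeal = (low (K := F) u).asIdeal
  have hmem : ∀ (τ : M ≃ₐ[K] M), τ • u.asIdeal = u.asIdeal →
      res K F M τ • (low (K := F) u).asIdeal ≤ (low (K := F) u).asIdeal := by
    intro τ hτ x hx
    rw [Ideal.mem_pointwise_smul_iff_inv_smul_mem, mem_low, ← map_inv, res_smul] at hx
    have h2 := Ideal.smul_mem_pointwise_smul τ _ _ hx
    rw [smul_inv_smul, hτ] at h2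
    exact h2
  refine le_antisymm (hmem σ h1) ?_
  have h2 := hmem σ⁻¹ (by rw [inv_smul_eq_iff, h1])
  rw [map_inv] at h2
  intro x hx
  rw [Ideal.mem_pointwise_smul_iff_inv_smul_mem]
  exact h2 (Ideal.smul_mem_pointwise_smul _ _ _ hx)

lemma res_frob {u : HeightOneSpectrum (𝓞 M)} {φ : M ≃ₐ[K] M} (hφ : Frob K u φ) :
    Frob K (low (K := F) u) (res K F M φ) := by
  refine ⟨res_dec hφ.1, fun x => ?_⟩
  rw [mem_low, map_sub, res_smul, map_pow, low_low]
  exact hφ.2 _

/-- **The inertia groups are mapped onto the inertia groups.** -/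
theorem ine_lift (u : HeightOneSpectrum (𝓞 M)) {τ : F ≃ₐ[K] F}
    (hτ : τ ∈ ine (K := K) (low (K := F) u)) : ∃ σ ∈ ine (K := K) u, res K F M σ = τ := by
  classical
  have hgal : IsGalois F M := IsGalois.tower_top_of_isGalois K F M
  obtain ⟨e1, f1, g1, he1, -, -, -, h1, -, -, -, h1'⟩ := nums (K := K) u
  obtain ⟨e2, f2, g2, he2, -, -, -, h2, -, -, -, h2'⟩ := nums (K := F) u
  obtain ⟨e3, f3, g3, he3, -, -, -, h3, -, -, -, h3'⟩ := nums (K := K) (low (K := F) u)
  have hmul : e1 = e3 * e2 := by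
    obtain ⟨z, hz⟩ := (low (K := K) u).valuation_exists_uniformizer K
    have a1 := h1' z
    have a2 := h2' (algebraMap K F z)
    have a3 := h3' z
    rw [low_low, hz] at a3
    rw [hz] at a1
    rw [← a3, ← IsScalarTower.algebraMap_apply, ← a1, ← exp_nsmul, ← exp_nsmul, ← exp_nsmul,
      exp_inj] at a2
    simp only [smul_neg, nsmul_eq_mul, mul_one, neg_inj] at a2
    have : (e1 : ℤ) = (e3 * e2 : ℕ) := by
      rw [← a2]
      push_cast
      ring
    exact_mod_cast this
  let f : ine (K := K) u →* (F ≃ₐ[K] F) := (res K F M).comp (ine (K := K) u).subtype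
  have hker : Nat.card f.ker ≤ e2 := by
    rw [← h2]
    have hfix : ∀ σ : f.ker, ∀ x : F, σ.1.1 (algebraMap F M x) = algebraMap F M x := by
      intro σ x
      have h4 : res K F M σ.1.1 = 1 := σ.2
      rw [← res_spec, h4]
      rfl
    let g : f.ker → ine (K := F) u := fun σ =>
      ⟨AlgEquiv.ofRingEquiv (f := (σ.1.1 : M ≃+* M)) (hfix σ), fun x => σ.1.2 x⟩
    have hg : Function.Injective g := by
      intro σ σ' hs
      apply Subtype.ext
      apply Subtype.ext
      apply AlgEquiv.ext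
      intro x
      have h5 := congrArg (fun t : ine (K := F) u => t.1 x) hs
      exact h5
    exact Nat.card_le_card_of_injective g hg
  have hcard := Subgroup.card_mul_index f.ker
  rw [Subgroup.index_ker, h1, hmul] at hcard
  have hrange : e3 ≤ Nat.card f.range := by
    have h4 : e3 * e2 ≤ Nat.card f.range * e2 := by
      rw [← hcard, mul_comm]
      exact Nat.mul_le_mul_left _ hker
    exact Nat.le_of_mul_le_mul_right h4 he2
  have hle : f.range ≤ ine (K := K) (low (K := F) u) := by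
    rintro _ ⟨σ, rfl⟩
    exact res_ine σ.2
  have heq : f.range = ine (K := K) (low (K := F) u) :=
    Subgroup.eq_of_le_of_card_ge hle (by rw [h3]; exact hrange)
  rw [← heq] at hτ
  obtain ⟨σ, hσ⟩ := hτ
  exact ⟨σ.1, σ.2, hσ⟩

end Pool.Agent.U81.AT
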