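import Pool.Agent.U81.AT.Res

/-!
The towers.
-/

set_option autoImplicit false

namespace Pool.Agent.U81.AT

open NumberField IsDedekindDomain Pointwise WithZero
open Pool.Agent.K4H55.BD (low mem_low)
open Pool.Agent.U81.MQ (ine dec nums)

variable (K : Type) [Field K] [NumberField K]

/-- the elements of degree `2 ^ k` in the field of the `q`-th roots of unity -/
noncomputable def lyr (q k : ℕ) : IntermediateField K (AlgebraicClosure K) where
  carrier := {x | ∀ σ : AlgebraicClosure K ≃ₐ[K] AlgebraicClosure K,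
    (∀ z : AlgebraicClosure K, z ^ q = 1 → ∃ m : ℕ, σ z = z ^ m ^ 2 ^ k) → σ x = x}
  mul_mem' := fun {x y} hx hy σ hσ => by rw [map_mul, hx σ hσ, hy σ hσ]
  one_mem' := fun σ _ => map_one σ
  add_mem' := fun {x y} hx hy σ hσ => by rw [map_add, hx σ hσ, hy σ hσ]
  zero_mem' := fun σ _ => map_zero σ
  algebraMap_mem' := fun x σ _ => σ.commutes x
  inv_mem' := fun x hx σ hσ => by rw [map_inv₀, hx σ hσ]

/-- the towers -/
noncomputable def tow (S : Set ℕ) (k : ℕ → ℕ) : IntermediateField K (AlgebraicClosure K) :=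
  ⨆ q : S, lyr K q (k q)

/-- the cyclotomic fields -/
noncomputable def cm (S : Finset ℕ) : IntermediateField K (AlgebraicClosure K) :=
  IntermediateField.adjoin K {z | ∃ q ∈ S, z ^ q = 1}

variable {K}

lemma nf_of (F : IntermediateField K (AlgebraicClosure K)) [FiniteDimensional K F] :
    NumberField F := by
  have : FiniteDimensional ℚ F := FiniteDimensional.trans ℚ K F
  exact { to_charZero := inferInstance, to_finiteDimensional := inferInstance }

lemma fd_of (F : IntermediateField K (AlgebraicClosure K)) [NumberField F] :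
    FiniteDimensional K F := Module.Finite.of_restrictScalars_finite ℚ K F

lemma roots_fin {S : Finset ℕ} (hS : ∀ q ∈ S, q.Prime) :
    {z : AlgebraicClosure K | ∃ q ∈ S, z ^ q = 1}.Finite := by
  classical
  have h1 : {z : AlgebraicClosure K | ∃ q ∈ S, z ^ q = 1} =
      ⋃ q ∈ S, {z | z ^ q = 1} := by
    ext z
    simp
  rw [h1]
  refine Set.Finite.biUnion (Finset.finite_toSet _) fun q hq => ?_
  have hp : (Polynomial.X ^ q - Polynomial.C (1 : AlgebraicClosure K)) ≠ 0 :=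
    Polynomial.X_pow_sub_C_ne_zero (hS q hq).pos _
  refine (Finset.finite_toSet (Polynomial.X ^ q -
    Polynomial.C (1 : AlgebraicClosure K)).roots.toFinset).subset fun x hx => ?_
  rw [Finset.mem_coe, Multiset.mem_toFinset, Polynomial.mem_roots hp]
  have : x ^ q = 1 := hx
  simp [Polynomial.IsRoot, this]

lemma cm_fd {S : Finset ℕ} (hS : ∀ q ∈ S, q.Prime) : FiniteDimensional K (cm K S) := by
  have := (roots_fin (K := K) hS).to_subtype
  exact IntermediateField.finiteDimensional_adjoin fun t _ =>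
    ((AlgebraicClosure.isAlgebraic K).isAlgebraic t).isIntegral

lemma cm_normal {S : Finset ℕ} : Normal K (cm K S) := by
  rw [IntermediateField.normal_iff_forall_map_le]
  intro σ
  unfold cm
  rw [IntermediateField.adjoin_map, IntermediateField.adjoin_le_iff]
  rintro _ ⟨z, ⟨q, hq, hz⟩, rfl⟩
  apply IntermediateField.subset_adjoin
  exact ⟨q, hq, by
    show σ z ^ q = 1
    rw [← map_pow, hz, map_one]⟩

lemma cm_gal {S : Finset ℕ} : IsGalois K (cm K S) := by
  have := cm_normal (K := K) (S := S)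
  exact ⟨⟩

lemma root_mem {S : Finset ℕ} {q : ℕ} (hq : q ∈ S) {z : AlgebraicClosure K} (hz : z ^ q = 1) :
    z ∈ cm K S := IntermediateField.subset_adjoin _ _ ⟨q, hq, hz⟩

lemma ext_cm {S : Finset ℕ} {f g : AlgebraicClosure K →ₐ[K] AlgebraicClosure K}
    (h : ∀ q ∈ S, ∀ r : AlgebraicClosure K, r ^ q = 1 → f r = g r) {z : AlgebraicClosure K}
    (hz : z ∈ cm K S) : f z = g z := by
  refine IntermediateField.adjoin_induction K (p := fun z _ => f z = g z)
    (fun x hx => ?_) (fun x => by rw [f.commutes, g.commutes]) ?_ ?_ ?_ hz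
  · obtain ⟨q, hq, hx⟩ := hx
    exact h q hq x hx
  · intro x y _ _ hx hy
    rw [map_add, map_add, hx, hy]
  · intro x _ hx
    rw [map_inv₀, map_inv₀, hx]
  · intro x y _ _ hx hy
    rw [map_mul, map_mul, hx, hy]

lemma pow_act (σ : AlgebraicClosure K →ₐ[K] AlgebraicClosure K) {q : ℕ} (hq : q ≠ 0)
    {z : AlgebraicClosure K} (hz : z ^ q = 1) : ∃ m : ℕ, σ z = z ^ m := by
  have hz0 : z ≠ 0 := by
    rintro rfl
    rw [zero_pow hq] at hz
    exact zero_ne_one hz
  have h1 : IsPrimitiveRoot z (orderOf z) := IsPrimitiveRoot.orderOf z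
  have h2 : orderOf z ≠ 0 := by
    intro h0
    have := orderOf_dvd_of_pow_eq_one hz
    rw [h0, zero_dvd_iff] at this
    exact hq this
  have : NeZero (orderOf z) := ⟨h2⟩
  obtain ⟨m, -, hm⟩ := h1.eq_pow_of_pow_eq_one (ξ := σ z) (by
    rw [← map_pow, h1.pow_eq_one, map_one])
  exact ⟨m, hm.symm⟩

lemma comm_cm {S : Finset ℕ} (hS : ∀ q ∈ S, q.Prime)
    (σ τ : AlgebraicClosure K →ₐ[K] AlgebraicClosure K) {z : AlgebraicClosure K}
    (hz : z ∈ cm K S) : σ (τ z) = τ (σ z) := by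
  refine ext_cm (f := σ.comp τ) (g := τ.comp σ) (fun q hq r hr => ?_) hz
  obtain ⟨m, hm⟩ := pow_act σ (hS q hq).ne_zero hr
  obtain ⟨l, hl⟩ := pow_act τ (hS q hq).ne_zero hr
  show σ (τ r) = τ (σ r)
  rw [hm, hl, map_pow, map_pow, hm, hl, ← pow_mul, ← pow_mul, mul_comm]

variable (F : IntermediateField K (AlgebraicClosure K))

lemma normal_sub {S : Finset ℕ} (hS : ∀ q ∈ S, q.Prime) (hF : F ≤ cm K S) : Normal K F := by
  rw [IntermediateField.normal_iff_forall_map_le]
  rintro σ _ ⟨z, hz, rfl⟩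
  have hgal : IsGalois K (AlgebraicClosure K) := inferInstance
  rw [← InfiniteGalois.fixedField_fixingSubgroup F]
  rintro ⟨τ, hτ⟩
  show τ (σ z) = σ z
  have h1 := comm_cm hS (τ : AlgebraicClosure K →ₐ[K] AlgebraicClosure K) σ (hF hz)
  have h2 : τ z = z := hτ ⟨z, hz⟩
  have h3 : τ (σ z) = σ (τ z) := h1
  rw [h3, h2]

lemma gal_sub {S : Finset ℕ} (hS : ∀ q ∈ S, q.Prime) (hF : F ≤ cm K S) : IsGalois K F := by
  have := normal_sub F hS hF
  exact ⟨⟩

/-- the layers are in the cyclotomic fields -/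
lemma lyr_le {S : Finset ℕ} {q : ℕ} (hq : q ∈ S) (k : ℕ) : lyr K q k ≤ cm K S := by
  intro x hx
  have hgal : IsGalois K (AlgebraicClosure K) := inferInstance
  rw [← InfiniteGalois.fixedField_fixingSubgroup (cm K S)]
  rintro ⟨τ, hτ⟩
  show τ x = x
  refine hx τ fun z hz => ⟨1, ?_⟩
  rw [one_pow, pow_one]
  exact hτ ⟨z, root_mem hq hz⟩

lemma tow_le (S : Finset ℕ) (k : ℕ → ℕ) : tow K (S : Set ℕ) k ≤ cm K S :=
  iSup_le fun q => lyr_le q.2 (k q)

/-- finite subsets -/
lemma exists_finset [FiniteDimensional K F] {S : Set ℕ} {k : ℕ → ℕ} (hF : F ≤ tow K S k) :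
    ∃ S' : Finset ℕ, (S' : Set ℕ) ⊆ S ∧ F ≤ tow K (S' : Set ℕ) k := by
  classical
  obtain ⟨α, hα⟩ := Field.exists_primitive_element K F
  have h1 : (α : AlgebraicClosure K) ∈ ⨆ q : S, lyr K q (k q) := hF α.2
  obtain ⟨s, hs⟩ := IntermediateField.exists_finset_of_mem_iSup h1
  refine ⟨s.image Subtype.val, fun q hq => ?_, ?_⟩
  · rw [Finset.mem_coe, Finset.mem_image] at hq
    obtain ⟨x, -, rfl⟩ := hq
    exact x.2
  · have h2 : (α : AlgebraicClosure K) ∈ tow K ((s.image Subtype.val : Finset ℕ) : Set ℕ) k := by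
      have h3 : (⨆ i ∈ s, lyr K (i : ℕ) (k i)) ≤
          tow K ((s.image Subtype.val : Finset ℕ) : Set ℕ) k := by
        refine iSup₂_le fun i hi => ?_
        exact le_iSup (fun q : ((s.image Subtype.val : Finset ℕ) : Set ℕ) => lyr K q (k q))
          ⟨i.1, Finset.mem_coe.2 (Finset.mem_image_of_mem _ hi)⟩
      exact h3 hs
    intro x hx
    have h4 : (⟨x, hx⟩ : F) ∈ IntermediateField.adjoin K {α} := by
      rw [hα]
      trivial
    have h5 : x ∈ (IntermediateField.adjoin K {α}).map F.val := ⟨⟨x, hx⟩, h4, rfl⟩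
    rw [IntermediateField.adjoin_map] at h5
    refine (IntermediateField.adjoin_le_iff.2 ?_ :
      IntermediateField.adjoin K (F.val '' {α}) ≤ _) h5
    rintro _ ⟨y, hy, rfl⟩
    rw [Set.mem_singleton_iff] at hy
    rw [hy]
    exact h2

/-- primitive roots of unity -/
lemma exists_cyc {S : Finset ℕ} (hS : ∀ q ∈ S, q.Prime) [NumberField (cm K S)] :
    ∃ ζ : ℕ → 𝓞 (cm K S), Cyc K S ζ := by
  classical
  have h1 : ∀ q : ℕ, ∃ z : 𝓞 (cm K S), q ∈ S → IsPrimitiveRoot (z : cm K S) q := by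
    intro q
    by_cases hq : q ∈ S
    · have : NeZero q := ⟨(hS q hq).ne_zero⟩
      have : NeZero ((q : ℕ) : AlgebraicClosure K) := ⟨by exact_mod_cast (hS q hq).ne_zero⟩
      obtain ⟨ξ, hξ⟩ : ∃ ξ : AlgebraicClosure K, IsPrimitiveRoot ξ q :=
        HasEnoughRootsOfUnity.exists_primitiveRoot (AlgebraicClosure K) q
      have hm : ξ ∈ cm K S := root_mem hq hξ.pow_eq_one
      have h2 : IsPrimitiveRoot (⟨ξ, hm⟩ : cm K S) q :=
        hξ.of_map_of_injective (f := (cm K S).val) (cm K S).val.injective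
      exact ⟨⟨⟨ξ, hm⟩, h2.isIntegral (hS q hq).pos⟩, fun _ => h2⟩
    · exact ⟨1, fun h => absurd h hq⟩
  choose ζ hζ using h1
  refine ⟨ζ, hS, hζ, fun σ hσ => ?_⟩
  have h2 : (AlgEquiv.toAlgHom σ) = AlgHom.id K (cm K S) := by
    refine IntermediateField.adjoin_algHom_ext K ?_
    rintro x ⟨q, hq, hx⟩
    have hm : x ∈ cm K S := root_mem hq hx
    have : NeZero q := ⟨(hS q hq).ne_zero⟩
    obtain ⟨i, -, hi⟩ := (hζ q hq).eq_pow_of_pow_eq_one (ξ := (⟨x, hm⟩ : cm K S)) (by
      apply Subtype.ext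
      exact hx)
    show σ ⟨x, hm⟩ = ⟨x, hm⟩
    rw [← hi, map_pow, hσ q hq]
  apply AlgEquiv.ext
  intro x
  exact congrArg (fun f : cm K S →ₐ[K] cm K S => f x) h2

end Pool.Agent.U81.AT
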